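import Pool.Agent.Y612.Eq.Stm

/-!
# Two minimal elements which generate
-/

set_option autoImplicit false

namespace Pool.Agent.Y612.Eq

open scoped Classical in
theorem EQ_Comb : S_Comb := by
  intro T _ K a b ha hb hab
  obtain ⟨F, hF⟩ : ∃ F : Set T → Set T → Set (Set T),
      ∀ A B k, k ∈ F A B ↔ (k ∈ K ∧ A ⊆ k ∧ k ⊆ B) :=
    ⟨fun A B => {k | k ∈ K ∧ A ⊆ k ∧ k ⊆ B}, fun A B k => Iff.rfl⟩
  obtain ⟨Bad, hBad⟩ : ∃ Bad : Set T → Set T → Prop,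
      ∀ A B, Bad A B ↔ ((∃ k, k ∈ F A B) ∧ ∀ l ∈ F A B, ∃ k ∈ F A B, ¬ l ⊆ k) :=
    ⟨fun A B => (∃ k, k ∈ F A B) ∧ ∀ l ∈ F A B, ∃ k ∈ F A B, ¬ l ⊆ k, fun A B => Iff.rfl⟩
  have h0 : Bad (a ∩ b) Set.univ := by
    rw [hBad]
    refine ⟨⟨a, (hF _ _ _).2 ⟨ha, Set.inter_subset_left, Set.subset_univ _⟩⟩, ?_⟩
    intro l hl
    obtain ⟨hl, hl1, -⟩ := (hF _ _ _).1 hl
    by_cases h1 : l ⊆ a
    · refine ⟨b, (hF _ _ _).2 ⟨hb, Set.inter_subset_right, Set.subset_univ _⟩, fun h2 => hab ?_⟩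
      have h3 : l = a ∩ b := Set.Subset.antisymm (Set.subset_inter h1 h2) hl1
      rw [← h3]
      exact hl
    · exact ⟨a, (hF _ _ _).2 ⟨ha, Set.inter_subset_left, Set.subset_univ _⟩, h1⟩
  have hex : ∃ n : ℕ, ∃ A B, Bad A B ∧ (B \ A).ncard = n := ⟨_, _, _, h0, rfl⟩
  obtain ⟨A, B, hAB, hn⟩ := Nat.find_spec hex
  have hmin : ∀ A' B', Bad A' B' → (B \ A).ncard ≤ (B' \ A').ncard := fun A' B' h => by
    rw [hn]
    exact Nat.find_min' hex ⟨A', B', h, rfl⟩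
  -- minimal elements
  obtain ⟨Mn, hMn⟩ : ∃ Mn : Set T → Prop,
      ∀ m, Mn m ↔ (m ∈ F A B ∧ ∀ k ∈ F A B, k ⊆ m → k = m) :=
    ⟨fun m => m ∈ F A B ∧ ∀ k ∈ F A B, k ⊆ m → k = m, fun m => Iff.rfl⟩
  have below : ∀ g ∈ F A B, ∃ m, Mn m ∧ m ⊆ g := by
    intro g hg
    obtain ⟨m, hm, hm2⟩ := Set.exists_min_image {k | k ∈ F A B ∧ k ⊆ g} (fun k => k.ncard)
      (Set.toFinite _) ⟨g, hg, subset_rfl⟩
    refine ⟨m, (hMn m).2 ⟨hm.1, fun k hk hkm => ?_⟩, hm.2⟩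
    exact Set.eq_of_subset_of_ncard_le hkm (hm2 k ⟨hk, hkm.trans hm.2⟩) (Set.toFinite _)
  have pair : ∀ x y, Mn x → Mn y → x ≠ y → x ∩ y = A ∧ x ∪ y = B := by
    intro x y hx hy hxy
    obtain ⟨hx1, hx2⟩ := (hMn x).1 hx
    obtain ⟨hy1, hy2⟩ := (hMn y).1 hy
    obtain ⟨xK, Ax, xB⟩ := (hF _ _ _).1 hx1
    obtain ⟨yK, Ay, yB⟩ := (hF _ _ _).1 hy1
    have hA : A ⊆ x ∩ y := Set.subset_inter Ax Ay
    have hB : x ∪ y ⊆ B := Set.union_subset xB yB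
    have hbad : Bad (x ∩ y) (x ∪ y) := by
      rw [hBad]
      refine ⟨⟨x, (hF _ _ _).2 ⟨xK, Set.inter_subset_left, Set.subset_union_left⟩⟩, ?_⟩
      intro l hl
      obtain ⟨lK, h1, h2⟩ := (hF _ _ _).1 hl
      have hlF : l ∈ F A B := (hF _ _ _).2 ⟨lK, hA.trans h1, h2.trans hB⟩
      by_cases h3 : l ⊆ x
      · refine ⟨y, (hF _ _ _).2 ⟨yK, Set.inter_subset_right, Set.subset_union_right⟩,
          fun h4 => hxy ?_⟩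
        rw [← hx2 l hlF h3, ← hy2 l hlF h4]
      · exact ⟨x, (hF _ _ _).2 ⟨xK, Set.inter_subset_left, Set.subset_union_left⟩, h3⟩
    have hsub : (x ∪ y) \ (x ∩ y) ⊆ B \ A := Set.sdiff_subset_sdiff hB hA
    have heq := Set.eq_of_subset_of_ncard_le hsub (hmin _ _ hbad) (Set.toFinite _)
    constructor
    · refine Set.Subset.antisymm (fun p hp => ?_) hA
      by_contra hpA
      have h1 : p ∈ B \ A := ⟨hB (Or.inl hp.1), hpA⟩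
      rw [← heq] at h1
      exact h1.2 hp
    · refine Set.Subset.antisymm hB (fun p hp => ?_)
      by_cases hpA : p ∈ A
      · exact Or.inl (Ax hpA)
      · have h1 : p ∈ B \ A := ⟨hp, hpA⟩
        rw [← heq] at h1
        exact h1.1
  obtain ⟨⟨k0, hk0⟩, hnl⟩ := (hBad A B).1 hAB
  obtain ⟨f, hf, -⟩ := below k0 hk0
  obtain ⟨hf1, hf2⟩ := (hMn f).1 hf
  obtain ⟨g', hg', hfg'⟩ := hnl f hf1
  obtain ⟨g, hg, hgg'⟩ := below g' hg'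
  obtain ⟨hg1, hg2⟩ := (hMn g).1 hg
  have hfg : f ≠ g := fun h => hfg' (h ▸ hgg')
  have n1 : ¬ f ⊆ g := fun h => hfg (hg2 f hf1 h)
  have n2 : ¬ g ⊆ f := fun h => hfg (hf2 g hg1 h).symm
  obtain ⟨e1, e2⟩ := pair f g hf hg hfg
  refine ⟨f, ((hF _ _ _).1 hf1).1, g, ((hF _ _ _).1 hg1).1, n1, n2, ?_⟩
  intro κ hκ h1 h2
  rw [e1] at h1
  rw [e2] at h2
  obtain ⟨m, hm, hmκ⟩ := below κ ((hF _ _ _).2 ⟨hκ, h1, h2⟩)
  by_cases hmf : f = m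
  · exact Or.inl (hmf ▸ hmκ)
  by_cases hmg : g = m
  · exact Or.inr (hmg ▸ hmκ)
  exfalso
  obtain ⟨e3, e4⟩ := pair f m hf hm hmf
  obtain ⟨e5, e6⟩ := pair g m hg hm hmg
  obtain ⟨p, hp1, hp2⟩ := Set.not_subset.1 n1
  have hpB : p ∈ g ∪ m := by
    rw [e6, ← e2]
    exact Or.inl hp1
  rcases hpB with h | h
  · exact hp2 h
  · have h3 : p ∈ f ∩ m := ⟨hp1, h⟩
    rw [e3, ← e1] at h3
    exact hp2 h3.2

end Pool.Agent.Y612.Eq
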