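import Pool.Agent.Y612.Eq.Stm

/-!
# Primitive positive definition of the base relation (author helper410)
-/

set_option autoImplicit false

namespace Pool.Agent.Y612.Eq

theorem EQ_Base : S_Base := by
  intro ι ar R hne h3
  have h1 : PP R {f : Fin 6 ⊕ Fin 1 → ℕ | ∀ a : {p : Fin 6 × Fin 6 // p.1 ≠ p.2},
      f ∈ {f : Fin 6 ⊕ Fin 1 → ℕ | f (Sum.inl a.1.1) ≠ f (Sum.inl a.1.2)}} :=
    pp_all (fun a => pp_ne hne _ _)
  refine pp_congr (pp_inter h1 (pp_three h3 (Sum.inl 0) (Sum.inr 0) (Sum.inl 1))) (fun f => ?_)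
  constructor
  · rintro ⟨hi, ho⟩
    refine ⟨fun a he => a.2 (hi he), fun he => ?_, ho⟩
    have h01 : (0 : Fin 6) = 1 := hi he
    exact absurd h01 (by decide)
  · rintro ⟨ha, _, ho⟩
    refine ⟨fun j j' he => ?_, ho⟩
    by_contra hjj
    exact ha ⟨(j, j'), hjj⟩ he

end Pool.Agent.Y612.Eq
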