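import Pool.Agent.Y612.Eq.Defs

/-!
# Closure properties of primitive positive definable relations
-/

set_option autoImplicit false

namespace Pool.Agent.Y612.Eq

open Finset
open scoped Classical

variable {ι : Type} {ar : ι → ℕ} {R : ∀ i, Set (Fin (ar i) → ℕ)}

/-- renaming of the variables of a constraint -/
def Con.map {V V' : Type} (ρ : V → V') (c : Con ar V) : Con ar V' := ⟨c.1, fun p => ρ (c.2 p)⟩

theorem holds_map {V V' : Type} (ρ : V → V') (c : Con ar V) (z : V' → ℕ) :
    Holds R z (Con.map ρ c) ↔ Holds R (fun v => z (ρ v)) c := Iff.rfl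

theorem holds_congr {V : Type} {z z' : V → ℕ} {c : Con ar V} (h : ∀ v, z v = z' v) :
    Holds R z c ↔ Holds R z' c := by
  rw [funext h]

theorem pp_congr {W : Type} {P Q : Set (W → ℕ)} (h : PP R P) (e : ∀ f, f ∈ Q ↔ f ∈ P) : PP R Q := by
  have : Q = P := Set.ext e
  rw [this]
  exact h

/-- an atom -/
theorem pp_atom {W : Type} (c : Con ar W) : PP R {f : W → ℕ | Holds R f c} := by
  refine ⟨Empty, inferInstance, [Con.map Sum.inl c], fun f => ?_⟩
  simp only [Set.mem_setOf_eq, List.mem_singleton, forall_eq]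
  constructor
  · intro h
    exact ⟨fun e => e.elim, (holds_map _ _ _).2 h⟩
  · rintro ⟨g, hg⟩
    exact (holds_map _ _ _).1 hg

theorem pp_univ {W : Type} : PP R (Set.univ : Set (W → ℕ)) := by
  refine ⟨Empty, inferInstance, [], fun f => ?_⟩
  simp only [Set.mem_univ, List.not_mem_nil, false_imp_iff, implies_true, exists_const_iff, and_true,
    true_iff]
  exact ⟨fun e => e.elim⟩

theorem pp_inter {W : Type} {P Q : Set (W → ℕ)} (hP : PP R P) (hQ : PP R Q) : PP R (P ∩ Q) := by
  obtain ⟨U, fU, J, h⟩ := hP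
  obtain ⟨U', fU', J', h'⟩ := hQ
  refine ⟨U ⊕ U', inferInstance, J.map (Con.map (Sum.map id Sum.inl)) ++
    J'.map (Con.map (Sum.map id Sum.inr)), fun f => ?_⟩
  rw [Set.mem_inter_iff, h, h']
  simp only [List.mem_append, List.mem_map, or_imp, forall_and, forall_exists_index, and_imp,
    forall_apply_eq_imp_iff₂]
  constructor
  · rintro ⟨⟨g, hg⟩, g', hg'⟩
    refine ⟨Sum.elim g g', fun c hc => ?_, fun c hc => ?_⟩
    · rw [holds_map]
      refine (holds_congr ?_).1 (hg c hc)
      rintro (w | u) <;> rfl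
    · rw [holds_map]
      refine (holds_congr ?_).1 (hg' c hc)
      rintro (w | u) <;> rfl
  · rintro ⟨g, hg, hg'⟩
    refine ⟨⟨fun u => g (Sum.inl u), fun c hc => ?_⟩, fun u => g (Sum.inr u), fun c hc => ?_⟩
    · refine (holds_congr ?_).1 ((holds_map _ _ _).1 (hg c hc))
      rintro (w | u) <;> rfl
    · refine (holds_congr ?_).1 ((holds_map _ _ _).1 (hg' c hc))
      rintro (w | u) <;> rfl

/-- substitution of variables -/
theorem pp_subst {W W' : Type} {P : Set (W → ℕ)} (hP : PP R P) (ρ : W → W') :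
    PP R {f : W' → ℕ | (fun w => f (ρ w)) ∈ P} := by
  obtain ⟨U, fU, J, h⟩ := hP
  refine ⟨U, inferInstance, J.map (Con.map (Sum.map ρ id)), fun f => ?_⟩
  rw [Set.mem_setOf_eq, h]
  simp only [List.mem_map, forall_exists_index, and_imp, forall_apply_eq_imp_iff₂]
  refine exists_congr fun g => forall_congr' fun c => imp_congr_right fun _ => ?_
  rw [holds_map]
  refine holds_congr ?_
  rintro (w | u) <;> rfl

/-- projection -/
theorem pp_exists {W U : Type} [Fintype U] {P : Set (W ⊕ U → ℕ)} (hP : PP R P) :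
    PP R {f : W → ℕ | ∃ g : U → ℕ, Sum.elim f g ∈ P} := by
  obtain ⟨U', fU, J, h⟩ := hP
  refine ⟨U ⊕ U', inferInstance, J.map (Con.map (Equiv.sumAssoc W U U')), fun f => ?_⟩
  simp only [Set.mem_setOf_eq, h, List.mem_map, forall_exists_index, and_imp,
    forall_apply_eq_imp_iff₂]
  constructor
  · rintro ⟨g, g', hg⟩
    refine ⟨Sum.elim g g', fun c hc => ?_⟩
    rw [holds_map]
    refine (holds_congr ?_).1 (hg c hc)
    rintro ((w | u) | u) <;> rfl
  · rintro ⟨g, hg⟩
    refine ⟨fun u => g (Sum.inl u), fun u => g (Sum.inr u), fun c hc => ?_⟩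
    refine (holds_congr ?_).1 ((holds_map _ _ _).1 (hg c hc))
    rintro ((w | u) | u) <;> rfl

/-- conjunction of finitely many relations -/
theorem pp_forall {W S : Type} (s : Finset S) {P : S → Set (W → ℕ)} (hP : ∀ a ∈ s, PP R (P a)) :
    PP R {f : W → ℕ | ∀ a ∈ s, f ∈ P a} := by
  induction s using Finset.induction_on with
  | empty => exact pp_congr pp_univ (fun f => by simp)
  | insert a s ha ih =>
    refine pp_congr (pp_inter (hP a (mem_insert_self a s))
      (ih fun b hb => hP b (mem_insert_of_mem hb))) (fun f => ?_)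
    simp

/-- the conjunction over a finite type -/
theorem pp_all {W S : Type} [Finite S] {P : S → Set (W → ℕ)} (hP : ∀ a, PP R (P a)) :
    PP R {f : W → ℕ | ∀ a, f ∈ P a} := by
  haveI := Fintype.ofFinite S
  exact pp_congr (pp_forall univ fun a _ => hP a) (fun f => by simp)

/-- `f u ≠ f v` -/
theorem pp_ne {W : Type} (h : PP R NE) (u v : W) : PP R {f : W → ℕ | f u ≠ f v} :=
  pp_congr (pp_subst h ![u, v]) (fun f => by simp [NE])

/-- `f v` is `f u` or `f w`, and these are different -/
theorem pp_three {W : Type} (h : PP R S3) (u v w : W) :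
    PP R {f : W → ℕ | f u ≠ f w ∧ (f v = f u ∨ f v = f w)} :=
  pp_congr (pp_subst h ![u, v, w]) (fun f => by simp [S3])

/-- a relation with four places, substituted -/
theorem pp_four {W : Type} {T : Set (Fin 4 → ℕ)} (h : PP R T) (a b c d : W) :
    PP R {f : W → ℕ | (![f a, f b, f c, f d] : Fin 4 → ℕ) ∈ T} :=
  pp_congr (pp_subst h ![a, b, c, d]) (fun f => by
    have e : (fun w => f ((![a, b, c, d] : Fin 4 → W) w)) = ![f a, f b, f c, f d] := by
      funext w
      fin_cases w <;> rfl
    rw [Set.mem_setOf_eq, Set.mem_setOf_eq, e])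

end Pool.Agent.Y612.Eq
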