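import Pool.Agent.Y612.Eq.Stm

/-!
# Two kernels which generate: the two cases
-/

set_option autoImplicit false

namespace Pool.Agent.Y612.Eq

open Finset
open scoped Classical

section

variable {ι : Type} {ar : ι → ℕ} {R : ∀ i, Set (Fin (ar i) → ℕ)}

/-- the tuples in `R i` whose kernel is contained in the union of the kernels of `s` and `t` -/
def P0 (R : ∀ i, Set (Fin (ar i) → ℕ)) (i : ι) (s t : Fin (ar i) → ℕ) : Set (Fin (ar i) → ℕ) :=
  {h | h ∈ R i ∧ ∀ p q, s p ≠ s q → t p ≠ t q → h p ≠ h q}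

theorem pp_P0 (hNE : PP R NE) (i : ι) (s t : Fin (ar i) → ℕ) : PP R (P0 R i s t) := by
  refine pp_congr (pp_inter (pp_atom (R := R) (⟨i, id⟩ : Con ar (Fin (ar i))))
    (pp_all (S := {z : Fin (ar i) × Fin (ar i) // s z.1 ≠ s z.2 ∧ t z.1 ≠ t z.2})
      fun a => pp_ne hNE a.1.1 a.1.2)) (fun f => ?_)
  change (_ ∧ _) ↔ (_ ∧ _)
  constructor
  · rintro ⟨h1, h2⟩
    exact ⟨h1, fun a => h2 _ _ a.2.1 a.2.2⟩
  · rintro ⟨h1, h2⟩
    exact ⟨h1, fun p q hp hq => h2 ⟨(p, q), hp, hq⟩⟩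

/-- the classes of places -/
abbrev Cl {k : ℕ} (s t : Fin k → ℕ) : Type := Set.range (fun p : Fin k => (s p, t p))

/-- the variable of a class -/
noncomputable def rho {k m : ℕ} (s t : Fin k → ℕ) (a : Fin m → Fin k) (c : Cl s t) :
    Fin m ⊕ Cl s t :=
  if h : ∃ x, (s (a x), t (a x)) = c.1 then Sum.inl h.choose else Sum.inr c

/-- the tuples of values of the tuples in `P0` at the places `a x` -/
def Tr (R : ∀ i, Set (Fin (ar i) → ℕ)) (i : ι) (s t : Fin (ar i) → ℕ) {m : ℕ}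
    (a : Fin m → Fin (ar i)) : Set (Fin m → ℕ) :=
  {e | ∃ g : Cl s t → ℕ, (fun p => Sum.elim e g (rho s t a ⟨(s p, t p), p, rfl⟩)) ∈ P0 R i s t}

theorem pp_Tr (hNE : PP R NE) (i : ι) (s t : Fin (ar i) → ℕ) {m : ℕ} (a : Fin m → Fin (ar i)) :
    PP R (Tr R i s t a) := by
  have : Fintype (Cl s t) := Fintype.ofFinite _
  exact pp_exists (pp_subst (pp_P0 hNE i s t)
    (fun p : Fin (ar i) => rho s t a ⟨(s p, t p), p, rfl⟩))

theorem mem_Tr {i : ι} {s t : Fin (ar i) → ℕ} {m : ℕ} {a : Fin m → Fin (ar i)}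
    (ha : ∀ x y, s (a x) = s (a y) → t (a x) = t (a y) → x = y) (e : Fin m → ℕ) :
    e ∈ Tr R i s t a ↔ ∃ h ∈ P0 R i s t, (∀ p q, s p = s q → t p = t q → h p = h q) ∧
      ∀ x, h (a x) = e x := by
  constructor
  · rintro ⟨g, hg⟩
    refine ⟨_, hg, fun p q h1 h2 => ?_, fun x => ?_⟩
    · have : (⟨(s p, t p), p, rfl⟩ : Cl s t) = ⟨(s q, t q), q, rfl⟩ :=
        Subtype.ext (Prod.ext h1 h2)
      simp only [this]
    · have h : ∃ y, (s (a y), t (a y)) = ((⟨(s (a x), t (a x)), a x, rfl⟩ : Cl s t)).1 := ⟨x, rfl⟩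
      have h2 := h.choose_spec
      have h3 : h.choose = x := ha _ _ (congrArg Prod.fst h2) (congrArg Prod.snd h2)
      simp only [rho]
      rw [dif_pos h, h3]
      rfl
  · rintro ⟨h, hh, h1, h2⟩
    refine ⟨fun c => h c.2.choose, ?_⟩
    have : (fun p => Sum.elim e (fun c : Cl s t => h c.2.choose)
        (rho s t a ⟨(s p, t p), p, rfl⟩)) = h := by
      funext p
      simp only [rho]
      split_ifs with hx
      · have h3 := hx.choose_spec
        rw [Sum.elim_inl, ← h2]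
        exact h1 _ _ (congrArg Prod.fst h3) (congrArg Prod.snd h3)
      · rw [Sum.elim_inr]
        have h3 := (⟨(s p, t p), p, rfl⟩ : Cl s t).2.choose_spec
        exact h1 _ _ (congrArg Prod.fst h3) (congrArg Prod.snd h3)
    rwa [this]

/-- the kernel of `s` or of `t` is contained in the kernel of a tuple in `P0` -/
theorem gen_P0 {i : ι} {s t : Fin (ar i) → ℕ}
    (hm : ∀ f ∈ R i, ker s ∩ ker t ⊆ ker f → ker f ⊆ ker s ∪ ker t → ker s ⊆ ker f ∨ ker t ⊆ ker f)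
    {h : Fin (ar i) → ℕ} (hh : h ∈ P0 R i s t) (h1 : ∀ p q, s p = s q → t p = t q → h p = h q) :
    (∀ p q, s p = s q → h p = h q) ∨ (∀ p q, t p = t q → h p = h q) := by
  have h0 : ker h ⊆ ker s ∪ ker t := by
    intro z hz
    by_contra hn
    exact hh.2 z.1 z.2 (fun h => hn (Or.inl h)) (fun h => hn (Or.inr h)) hz
  rcases hm h hh.1 (fun z hz => h1 _ _ hz.1 hz.2) h0 with h2 | h2
  · exact Or.inl fun p q hpq => h2 (a := (p, q)) hpq
  · exact Or.inr fun p q hpq => h2 (a := (p, q)) hpq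

/-- all tuples of values with the kernel of `s` occur -/
theorem mem_Tr_left (hP : S_Perm) (hI : Inv R) {i : ι} {s t : Fin (ar i) → ℕ} (hs : s ∈ R i)
    {m : ℕ} {a : Fin m → Fin (ar i)}
    (ha : ∀ x y, s (a x) = s (a y) → t (a x) = t (a y) → x = y) (e : Fin m → ℕ)
    (he : ∀ x y, s (a x) = s (a y) ↔ e x = e y) : e ∈ Tr R i s t a := by
  obtain ⟨σ, hσ⟩ := hP m (fun x => s (a x)) e (Set.ext fun z => he z.1 z.2)
  refine (mem_Tr ha e).2 ⟨fun p => σ (s p), ⟨hI σ i s hs, fun p q h1 _ h2 => h1 (σ.injective h2)⟩,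
    fun p q h1 _ => by simp only [h1], hσ⟩

theorem mem_Tr_right (hP : S_Perm) (hI : Inv R) {i : ι} {s t : Fin (ar i) → ℕ} (ht : t ∈ R i)
    {m : ℕ} {a : Fin m → Fin (ar i)}
    (ha : ∀ x y, s (a x) = s (a y) → t (a x) = t (a y) → x = y) (e : Fin m → ℕ)
    (he : ∀ x y, t (a x) = t (a y) ↔ e x = e y) : e ∈ Tr R i s t a := by
  obtain ⟨σ, hσ⟩ := hP m (fun x => t (a x)) e (Set.ext fun z => he z.1 z.2)
  refine (mem_Tr ha e).2 ⟨fun p => σ (t p), ⟨hI σ i t ht, fun p q _ h1 h2 => h1 (σ.injective h2)⟩,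
    fun p q _ h1 => by simp only [h1], hσ⟩

/-- the first case -/
theorem case_one (hP : S_Perm) (hI : Inv R) (hNE : PP R NE) {i : ι} {s t : Fin (ar i) → ℕ}
    (hs : s ∈ R i) (ht : t ∈ R i)
    (hm : ∀ f ∈ R i, ker s ∩ ker t ⊆ ker f → ker f ⊆ ker s ∪ ker t → ker s ⊆ ker f ∨ ker t ⊆ ker f)
    {p q r : Fin (ar i)} (h1 : s p = s q) (h2 : t p ≠ t q) (h3 : t p = t r) (h4 : s p ≠ s r) :
    PP R S3 := by
  have h5 : s q ≠ s r := fun h => h4 (h1.trans h)
  have h6 : t q ≠ t r := fun h => h2 (h3.trans h.symm)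
  have ha : ∀ x y : Fin 3, s ((![q, p, r] : Fin 3 → Fin (ar i)) x) =
      s ((![q, p, r] : Fin 3 → Fin (ar i)) y) → t ((![q, p, r] : Fin 3 → Fin (ar i)) x) =
      t ((![q, p, r] : Fin 3 → Fin (ar i)) y) → x = y := by
    intro x y
    fin_cases x <;> fin_cases y <;> simp [h2, h2.symm, h4, h4.symm, h5, h5.symm]
  refine pp_congr (pp_inter (pp_Tr hNE i s t ![q, p, r]) (pp_ne hNE 0 2)) (fun e => ?_)
  constructor
  · rintro ⟨h7, h8⟩
    refine ⟨?_, h7⟩
    rcases h8 with h8 | h8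
    · refine mem_Tr_left hP hI hs ha e (fun x y => ?_)
      fin_cases x <;> fin_cases y <;>
        simp [h1, h5, h5.symm, h7, h7.symm, h8]
    · refine mem_Tr_right hP hI ht ha e (fun x y => ?_)
      fin_cases x <;> fin_cases y <;>
        simp [h3, h6, h6.symm, h7, h7.symm, h8]
  · rintro ⟨h7, h8⟩
    obtain ⟨h, hh, hc, hv⟩ := (mem_Tr ha e).1 h7
    refine ⟨h8, ?_⟩
    have v0 : h q = e 0 := hv 0
    have v1 : h p = e 1 := hv 1
    have v2 : h r = e 2 := hv 2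
    rw [← v0, ← v1, ← v2]
    rcases gen_P0 hm hh hc with h9 | h9
    · exact Or.inl (h9 _ _ h1)
    · exact Or.inr (h9 _ _ h3)

/-- if there is no triple as in the first case, the pairs are far from each other -/
theorem far {k : ℕ} {s t : Fin k → ℕ}
    (N : ∀ x y z, s x = s y → t x ≠ t y → t x = t z → s x ≠ s z → False)
    {p q u v : Fin k} (h1 : s p = s q) (h2 : t p ≠ t q) (h3 : t u = t v) (h4 : s u ≠ s v) :
    s p ≠ s u ∧ t p ≠ t u := by
  constructor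
  · intro h
    by_cases h5 : t p = t u
    · exact N p q v h1 h2 (h5.trans h3) (fun h6 => h4 (h.symm.trans h6))
    · exact N u p v h.symm (fun h6 => h5 h6.symm) h3 h4
  · intro h
    by_cases h5 : s p = s v
    · exact N v q u (h5.symm.trans h1) (fun h6 => h2 ((h.trans h3).trans h6)) h3.symm h4.symm
    · exact N p q v h1 h2 (h.trans h3) h5

/-- the second case -/
theorem case_two (hP : S_Perm) (hI : Inv R) {i : ι} {s t : Fin (ar i) → ℕ}
    (hs : s ∈ R i) (ht : t ∈ R i)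
    (hm : ∀ f ∈ R i, ker s ∩ ker t ⊆ ker f → ker f ⊆ ker s ∪ ker t → ker s ⊆ ker f ∨ ker t ⊆ ker f)
    (N : ∀ x y z, s x = s y → t x ≠ t y → t x = t z → s x ≠ s z → False)
    {p q u v : Fin (ar i)} (h1 : s p = s q) (h2 : t p ≠ t q) (h3 : t u = t v) (h4 : s u ≠ s v) :
    Four (Tr R i s t ![p, q, u, v]) := by
  obtain ⟨a1, b1⟩ := far N h1 h2 h3 h4
  obtain ⟨a2, b2⟩ := far N h1.symm h2.symm h3 h4
  obtain ⟨a3, b3⟩ := far N h1 h2 h3.symm h4.symm
  obtain ⟨a4, b4⟩ := far N h1.symm h2.symm h3.symm h4.symm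
  have ha : ∀ x y : Fin 4, s ((![p, q, u, v] : Fin 4 → Fin (ar i)) x) =
      s ((![p, q, u, v] : Fin 4 → Fin (ar i)) y) → t ((![p, q, u, v] : Fin 4 → Fin (ar i)) x) =
      t ((![p, q, u, v] : Fin 4 → Fin (ar i)) y) → x = y := by
    intro x y
    fin_cases x <;> fin_cases y <;> simp [h2, h2.symm, h4, h4.symm, a1, a1.symm, a2, a2.symm,
      a3, a3.symm, a4, a4.symm]
  refine ⟨fun f hf => ?_, fun f e1 e2 e3 e4 => ?_, fun f e1 e2 e3 e4 => ?_⟩
  · obtain ⟨h, hh, hc, hv⟩ := (mem_Tr ha f).1 hf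
    have v0 : h p = f 0 := hv 0
    have v1 : h q = f 1 := hv 1
    have v2 : h u = f 2 := hv 2
    have v3 : h v = f 3 := hv 3
    rw [← v0, ← v1, ← v2, ← v3]
    rcases gen_P0 hm hh hc with h9 | h9
    · exact Or.inl (h9 _ _ h1)
    · exact Or.inr (h9 _ _ h3)
  · have e5 : f 1 ≠ f 2 := fun h => e3 (e1.trans h)
    have e6 : f 1 ≠ f 3 := fun h => e4 (e1.trans h)
    refine mem_Tr_left hP hI hs ha f (fun x y => ?_)
    fin_cases x <;> fin_cases y <;>
      simp [h1, h4, h4.symm, a2, a2.symm, a4, a4.symm,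
        e1, e2, e2.symm, e5, e5.symm, e6, e6.symm]
  · have e5 : f 0 ≠ f 3 := fun h => e3 (h.trans e1.symm)
    have e6 : f 1 ≠ f 3 := fun h => e4 (h.trans e1.symm)
    refine mem_Tr_right hP hI ht ha f (fun x y => ?_)
    fin_cases x <;> fin_cases y <;>
      simp [h3, h2, h2.symm, b3, b3.symm, b4, b4.symm,
        e1, e2, e2.symm, e5, e5.symm, e6, e6.symm]

end

theorem EQ_Cases (hP : S_Perm) : S_Cases := by
  intro ι ar R hI hNE i s hs t ht hst hts hm
  by_cases N : ∀ x y z, s x = s y → t x ≠ t y → t x = t z → s x ≠ s z → False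
  · right
    obtain ⟨z, hz, hz'⟩ := Set.not_subset.1 hst
    obtain ⟨w, hw, hw'⟩ := Set.not_subset.1 hts
    exact ⟨Tr R i s t ![z.1, z.2, w.1, w.2], pp_Tr hNE i s t _,
      case_two hP hI hs ht hm N hz hz' hw hw'⟩
  · left
    push Not at N
    obtain ⟨x, y, z, h1, h2, h3, h4, -⟩ := N
    exact case_one hP hI hNE hs ht hm h1 h2 h3 h4

end Pool.Agent.Y612.Eq
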