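import Pool.Agent.Y612.Eq.Stm

/-!
# Circuits for the propagation (proof of `S_Circ`, by helper508)
-/

set_option autoImplicit false

namespace Pool.Agent.Y612.Eq

open Finset
open scoped Classical

theorem cost_le {I : Type} {L0 : List (Fn I)} {f : Fn I} {a b : ℕ} (h : Cost L0 f a)
    (hab : a ≤ b) : Cost L0 f b := by
  intro L hL hs
  obtain ⟨L1, h1, h2, h3, h4⟩ := h L hL hs
  exact ⟨L1, h1, h2, by omega, h4⟩

theorem cost_sets {I V : Type} {k K : ℕ} (hk : k ≤ K) {L0 : List (Fn I)} (e : V → V → Fn I)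
    (he : ∀ u v, Avail L0 (e u v)) (c : Fin k → V) (S : Set (Finset (Fin k × Fin k))) :
    Cost L0 (fun x => decide (∃ M ∈ S, ∀ m ∈ M, e (c m.1) (c m.2) x = true))
      (2 ^ (K * K) * (K * K + 1)) := by
  have hkk : k * k ≤ K * K := Nat.mul_le_mul hk hk
  have h1 := Cost.anyL (L0 := L0) (k := K * K)
    ((univ.filter fun M : Finset (Fin k × Fin k) => M ∈ S).toList.map fun M =>
      (fun x => (M.toList.map fun m => e (c m.1) (c m.2)).all fun g => g x : Fn I)) (by
      intro g hg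
      rw [List.mem_map] at hg
      obtain ⟨M, -, rfl⟩ := hg
      have h2 := Cost.allL (L0 := L0) (k := 0) (M.toList.map fun m => e (c m.1) (c m.2)) (by
        intro g hg
        rw [List.mem_map] at hg
        obtain ⟨m, -, rfl⟩ := hg
        exact Cost.of_avail (he _ _))
      refine cost_le h2 ?_
      rw [List.length_map, Finset.length_toList, zero_add, Nat.mul_one]
      have h3 := Finset.card_le_univ M
      rw [Fintype.card_prod, Fintype.card_fin] at h3
      omega)
  have e1 : (fun x : I → Bool => decide (∃ M ∈ S, ∀ m ∈ M, e (c m.1) (c m.2) x = true)) =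
      fun x => ((univ.filter fun M : Finset (Fin k × Fin k) => M ∈ S).toList.map fun M =>
        (fun x => (M.toList.map fun m => e (c m.1) (c m.2)).all fun g => g x : Fn I)).any
          fun f => f x := by
    funext x
    rw [Bool.eq_iff_iff, decide_eq_true_iff, List.any_eq_true]
    constructor
    · rintro ⟨M, hM, h⟩
      refine ⟨_, List.mem_map.mpr ⟨M, by simpa using hM, rfl⟩, ?_⟩
      rw [List.all_eq_true]
      intro g hg
      rw [List.mem_map] at hg
      obtain ⟨m, hm, rfl⟩ := hg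
      exact h m (Finset.mem_toList.mp hm)
    · rintro ⟨g, hg, hx⟩
      rw [List.mem_map] at hg
      obtain ⟨M, hM, rfl⟩ := hg
      rw [Finset.mem_toList, Finset.mem_filter] at hM
      refine ⟨M, hM.2, fun m hm => ?_⟩
      rw [List.all_eq_true] at hx
      exact hx _ (List.mem_map.mpr ⟨m, Finset.mem_toList.mpr hm, rfl⟩)
  rw [e1]
  refine cost_le h1 ?_
  rw [List.length_map, Finset.length_toList]
  refine Nat.mul_le_mul ?_ le_rfl
  refine (Finset.card_le_univ _).trans ?_
  rw [Fintype.card_finset, Fintype.card_prod, Fintype.card_fin]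
  exact Nat.pow_le_pow_right (by norm_num) hkk

/-- one constraint: the constraint is chosen, and one of the sets `M ∈ S` of equalities is true -/
noncomputable def cf {I V : Type} {k : ℕ} (e : V → V → Fn I) (c : Fin k → V)
    (S : Set (Finset (Fin k × Fin k))) (i : I) : Fn I :=
  fun x => x i && decide (∃ M ∈ S, ∀ m ∈ M, e (c m.1) (c m.2) x = true)

theorem cf_true {I V : Type} {k : ℕ} (e : V → V → Fn I) (c : Fin k → V)
    (S : Set (Finset (Fin k × Fin k))) (i : I) (x : I → Bool) :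
    cf e c S i x = true ↔ x i = true ∧ ∃ M ∈ S, ∀ m ∈ M, e (c m.1) (c m.2) x = true := by
  unfold cf
  rw [Bool.and_eq_true, decide_eq_true_iff]

theorem cost_cf {I V : Type} {k K : ℕ} (hk : k ≤ K) {L0 : List (Fn I)} (e : V → V → Fn I)
    (he : ∀ u v, Avail L0 (e u v)) (c : Fin k → V) (S : Set (Finset (Fin k × Fin k))) (i : I) :
    Cost L0 (cf e c S i) (2 ^ (K * K) * (K * K + 1) + 1) := by
  have h1 : Avail L0 (fun x : I → Bool => x i) := Or.inr (Or.inl ⟨i, rfl⟩)
  have h2 := Cost.and (Cost.of_avail h1) (cost_sets hk e he c S)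
  rw [Nat.zero_add] at h2
  exact h2

/-- a finite disjunction -/
noncomputable def anyF {I J : Type} [Fintype J] (g : J → Fn I) : Fn I :=
  fun x => ((Finset.univ : Finset J).toList.map g).any fun f => f x

theorem anyF_true {I J : Type} [Fintype J] (g : J → Fn I) (x : I → Bool) :
    anyF g x = true ↔ ∃ j, g j x = true := by
  unfold anyF
  rw [List.any_eq_true]
  constructor
  · rintro ⟨f, hf, hx⟩
    rw [List.mem_map] at hf
    obtain ⟨j, -, rfl⟩ := hf
    exact ⟨j, hx⟩
  · rintro ⟨j, hj⟩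
    exact ⟨g j, List.mem_map.mpr ⟨j, Finset.mem_toList.mpr (Finset.mem_univ j), rfl⟩, hj⟩

theorem cost_anyF {I J : Type} [Fintype J] {L0 : List (Fn I)} {k : ℕ} (g : J → Fn I)
    (h : ∀ j, Cost L0 (g j) k) : Cost L0 (anyF g) (Fintype.card J * (k + 1)) := by
  have h1 := Cost.anyL (L0 := L0) (k := k) ((Finset.univ : Finset J).toList.map g) (by
    intro f hf
    rw [List.mem_map] at hf
    obtain ⟨j, -, rfl⟩ := hf
    exact h j)
  rw [List.length_map, Finset.length_toList, Finset.card_univ] at h1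
  exact h1

/-- conjunction -/
def andF {I : Type} (f g : Fn I) : Fn I := fun x => f x && g x

theorem andF_true {I : Type} (f g : Fn I) (x : I → Bool) :
    andF f g x = true ↔ f x = true ∧ g x = true := by
  unfold andF
  rw [Bool.and_eq_true]

theorem cost_andF {I : Type} {L0 : List (Fn I)} {f g : Fn I} (hf : Avail L0 f)
    (hg : Avail L0 g) : Cost L0 (andF f g) 1 := by
  have h := Cost.and (Cost.of_avail hf) (Cost.of_avail hg)
  exact h

/-- disjunction -/
def orF {I : Type} (f g : Fn I) : Fn I := fun x => f x || g x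

theorem orF_true {I : Type} (f g : Fn I) (x : I → Bool) :
    orF f g x = true ↔ f x = true ∨ g x = true := by
  unfold orF
  rw [Bool.or_eq_true]

theorem cost_orF {I : Type} {L0 : List (Fn I)} {f g : Fn I} {a b : ℕ} (hf : Cost L0 f a)
    (hg : Cost L0 g b) : Cost L0 (orF f g) (a + b + 1) := Cost.or hf hg

section

variable {ι : Type} {ar : ι → ℕ} (R : ∀ i, Set (Fin (ar i) → ℕ)) {V I : Type}

theorem forced_iff (c : Con ar V) (E : V → V → Prop) (p q : Fin (ar c.1)) :
    Forced R c E p q ↔ ∃ M : Finset (Fin (ar c.1) × Fin (ar c.1)),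
      (∀ f ∈ R c.1, (∀ m ∈ M, f m.1 = f m.2) → f p = f q) ∧
        ∀ m ∈ M, E (c.2 m.1) (c.2 m.2) := by
  constructor
  · intro h
    refine ⟨univ.filter fun m => E (c.2 m.1) (c.2 m.2), ?_, fun m hm => (Finset.mem_filter.mp hm).2⟩
    intro f hf hm
    exact h f hf fun p' q' hE => hm (p', q') (Finset.mem_filter.mpr ⟨Finset.mem_univ _, hE⟩)
  · rintro ⟨M, h1, h2⟩ f hf hE
    exact h1 f hf fun m hm => hE m.1 m.2 (h2 m hm)

theorem not_alive_iff (c : Con ar V) (E : V → V → Prop) :
    ¬ Alive R c E ↔ ∃ M : Finset (Fin (ar c.1) × Fin (ar c.1)),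
      (¬ ∃ f ∈ R c.1, ∀ m ∈ M, f m.1 = f m.2) ∧ ∀ m ∈ M, E (c.2 m.1) (c.2 m.2) := by
  constructor
  · intro h
    refine ⟨univ.filter fun m => E (c.2 m.1) (c.2 m.2), ?_, fun m hm => (Finset.mem_filter.mp hm).2⟩
    rintro ⟨f, hf, hm⟩
    exact h ⟨f, hf, fun p q hE => hm (p, q) (Finset.mem_filter.mpr ⟨Finset.mem_univ _, hE⟩)⟩
  · rintro ⟨M, h1, h2⟩ ⟨f, hf, hE⟩
    exact h1 ⟨f, hf, fun m hm => hE m.1 m.2 (h2 m hm)⟩

/-- the equalities after `n` steps, as functions of the inputs -/
noncomputable def sf [Fintype I] (con : I → Con ar V) (n : ℕ) (u v : V) : Fn I :=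
  fun x => decide (stage R con (univ.filter fun i => x i = true) n u v)

theorem sf_true [Fintype I] (con : I → Con ar V) (n : ℕ) (u v : V) (x : I → Bool) :
    sf R con n u v x = true ↔ stage R con (univ.filter fun i => x i = true) n u v := by
  unfold sf
  rw [decide_eq_true_iff]

/-- the sets of equalities which force the equality of `u` and `v` -/
def forceSets (c : Con ar V) (u v : V) : Set (Finset (Fin (ar c.1) × Fin (ar c.1))) :=
  {M | ∃ p q, c.2 p = u ∧ c.2 q = v ∧ ∀ f ∈ R c.1, (∀ m ∈ M, f m.1 = f m.2) → f p = f q}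

/-- the sets of equalities which no tuple satisfies -/
def deadSets (c : Con ar V) : Set (Finset (Fin (ar c.1) × Fin (ar c.1))) :=
  {M | ¬ ∃ f ∈ R c.1, ∀ m ∈ M, f m.1 = f m.2}

theorem sf_succ [Fintype V] [Fintype I] (con : I → Con ar V) (n : ℕ) (u v : V) :
    sf R con (n + 1) u v = orF (sf R con n u v)
      (orF (anyF fun w => andF (sf R con n u w) (sf R con n w v))
        (anyF fun i => cf (sf R con n) (con i).2 (forceSets R (con i) u v) i)) := by
  funext x
  rw [Bool.eq_iff_iff, sf_true, orF_true, orF_true, anyF_true, anyF_true, sf_true]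
  show step R con _ _ u v ↔ _
  unfold step
  refine or_congr Iff.rfl (or_congr ?_ ?_)
  · refine exists_congr fun w => ?_
    rw [andF_true, sf_true, sf_true]
  · constructor
    · rintro ⟨i, hi, p, q, hp, hq, hF⟩
      rw [Finset.mem_filter] at hi
      rw [forced_iff] at hF
      obtain ⟨M, hM1, hM2⟩ := hF
      refine ⟨i, ?_⟩
      rw [cf_true]
      refine ⟨hi.2, M, ⟨p, q, hp, hq, hM1⟩, fun m hm => ?_⟩
      rw [sf_true]
      exact hM2 m hm
    · rintro ⟨i, hx⟩
      rw [cf_true] at hx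
      obtain ⟨hi, M, ⟨p, q, hp, hq, hM1⟩, hM2⟩ := hx
      refine ⟨i, Finset.mem_filter.mpr ⟨Finset.mem_univ _, hi⟩, p, q, hp, hq, ?_⟩
      rw [forced_iff]
      refine ⟨M, hM1, fun m hm => ?_⟩
      have h := hM2 m hm
      rw [sf_true] at h
      exact h

theorem sf_cost {K : ℕ} (hK : ∀ i, ar i ≤ K) [Fintype V] [Fintype I] (con : I → Con ar V)
    (n : ℕ) {L : List (Fn I)} (hav : ∀ u v, Avail L (sf R con n u v)) (u v : V) :
    Cost L (sf R con (n + 1) u v)
      (2 * Fintype.card V + Fintype.card I * (2 ^ (K * K) * (K * K + 1) + 2) + 2) := by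
  have h5 := cost_anyF (L0 := L) (k := 1) (fun w => andF (sf R con n u w) (sf R con n w v))
    (fun w => cost_andF (hav u w) (hav w v))
  have h6 := cost_anyF (L0 := L) (k := 2 ^ (K * K) * (K * K + 1) + 1)
    (fun i => cf (sf R con n) (con i).2 (forceSets R (con i) u v) i)
    (fun i => cost_cf (hK (con i).1) (sf R con n) hav (con i).2 (forceSets R (con i) u v) i)
  have h7 := cost_orF (Cost.of_avail (hav u v)) (cost_orF h5 h6)
  rw [sf_succ]
  refine cost_le h7 (le_of_eq ?_)
  ring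

theorem stage_circ {K : ℕ} (hK : ∀ i, ar i ≤ K) [Fintype V] [Fintype I] (con : I → Con ar V) :
    ∀ n : ℕ, ∃ L : List (Fn I), MCirc I L ∧
      L.length ≤ n * (Fintype.card V ^ 2 *
        (2 * Fintype.card V + Fintype.card I * (2 ^ (K * K) * (K * K + 1) + 2) + 2)) ∧
      ∀ u v, Avail L (sf R con n u v) := by
  intro n
  induction n with
  | zero =>
    refine ⟨[], MCirc.nil, by simp, fun u v => Or.inl ⟨decide (u = v), ?_⟩⟩
    funext x
    rw [Bool.eq_iff_iff, sf_true, decide_eq_true_iff]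
    rfl
  | succ n ih =>
    obtain ⟨L, hL, hlen, hav⟩ := ih
    obtain ⟨L', h1, h2, h3, h4⟩ := Cost.family hL
      (Finset.univ : Finset (V × V)).toList
      (fun s => sf R con (n + 1) s.1 s.2)
      (fun s _ => sf_cost R hK con n hav s.1 s.2)
    refine ⟨L', h1, ?_, fun u v => h4 (u, v) (Finset.mem_toList.mpr (Finset.mem_univ _))⟩
    rw [Finset.length_toList, Finset.card_univ, Fintype.card_prod, ← pow_two] at h3
    rw [Nat.succ_mul]
    exact h3.trans (Nat.add_le_add_right hlen _)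

theorem final_eq [Fintype I] (con : I → Con ar V) (n : ℕ) :
    (fun x : I → Bool => decide (∃ i, x i = true ∧
      ¬ Alive R (con i) (stage R con (univ.filter fun i => x i = true) n))) =
      anyF fun i => cf (sf R con n) (con i).2 (deadSets R (con i)) i := by
  funext x
  rw [Bool.eq_iff_iff, decide_eq_true_iff, anyF_true]
  refine exists_congr fun i => ?_
  rw [cf_true]
  refine and_congr Iff.rfl ?_
  rw [not_alive_iff]
  constructor
  · rintro ⟨M, hM1, hM2⟩
    refine ⟨M, hM1, fun m hm => ?_⟩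
    rw [sf_true]
    exact hM2 m hm
  · rintro ⟨M, hM1, hM2⟩
    refine ⟨M, hM1, fun m hm => ?_⟩
    have h := hM2 m hm
    rw [sf_true] at h
    exact h

theorem arith (C0 n a b l l' : ℕ) (hlen : l ≤ n * (a ^ 2 * (2 * a + b * (C0 + 2) + 2)))
    (h3 : l' ≤ l + b * (C0 + 1 + 1)) : l' ≤ (C0 + 4) * (n + 1) * (a + b + 1) ^ 4 := by
  obtain ⟨T, hT⟩ : ∃ T, T = a + b + 1 := ⟨_, rfl⟩
  have e1 : 2 * a + b * (C0 + 2) + 2 ≤ (C0 + 4) * T := by
    rw [hT]
    nlinarith
  have e2 : a ^ 2 ≤ T ^ 2 := Nat.pow_le_pow_left (by omega) 2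
  have e3 : a ^ 2 * (2 * a + b * (C0 + 2) + 2) ≤ (C0 + 4) * T ^ 3 := by
    calc a ^ 2 * (2 * a + b * (C0 + 2) + 2) ≤ T ^ 2 * ((C0 + 4) * T) := Nat.mul_le_mul e2 e1
      _ = (C0 + 4) * T ^ 3 := by ring
  have e4 : T ^ 3 ≤ T ^ 4 := Nat.pow_le_pow_right (by omega) (by norm_num)
  have e5 : b * (C0 + 1 + 1) ≤ (C0 + 4) * T := by
    rw [hT]
    nlinarith
  have e6 : T ≤ T ^ 4 := Nat.le_self_pow (by norm_num) T
  rw [← hT]
  calc l' ≤ l + b * (C0 + 1 + 1) := h3
    _ ≤ n * ((C0 + 4) * T ^ 4) + (C0 + 4) * T ^ 4 := by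
        refine Nat.add_le_add (hlen.trans (Nat.mul_le_mul_left _
          (e3.trans (Nat.mul_le_mul_left _ e4)))) (e5.trans (Nat.mul_le_mul_left _ e6))
    _ = (C0 + 4) * (n + 1) * T ^ 4 := by ring

theorem circ_main {K : ℕ} (hK : ∀ i, ar i ≤ K) [Fintype V] [Fintype I] (con : I → Con ar V)
    (n : ℕ) : ∃ L : List (Fn I), MCirc I L ∧
      L.length ≤ (2 ^ (K * K) * (K * K + 1) + 4) * (n + 1) *
        (Fintype.card V + Fintype.card I + 1) ^ 4 ∧
      Avail L (fun x : I → Bool => decide (∃ i, x i = true ∧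
        ¬ Alive R (con i) (stage R con (univ.filter fun i => x i = true) n))) := by
  obtain ⟨L, hL, hlen, hav⟩ := stage_circ R hK con n
  have h6 := cost_anyF (L0 := L) (k := 2 ^ (K * K) * (K * K + 1) + 1)
    (fun i => cf (sf R con n) (con i).2 (deadSets R (con i)) i)
    (fun i => cost_cf (hK (con i).1) (sf R con n) hav (con i).2 (deadSets R (con i)) i)
  obtain ⟨L', h1, h2, h3, h4⟩ := h6 L hL (List.Subset.refl _)
  refine ⟨L', h1, arith _ n _ _ _ _ hlen h3, ?_⟩
  rw [final_eq]
  exact h4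

end

theorem EQ_Circ : S_Circ := by
  intro ι _ ar R
  obtain ⟨K, hK⟩ : ∃ K, ∀ i, ar i ≤ K := by
    have := Fintype.ofFinite ι
    exact ⟨univ.sup ar, fun i => Finset.le_sup (f := ar) (mem_univ i)⟩
  exact ⟨2 ^ (K * K) * (K * K + 1) + 4, fun V I _ _ con n => circ_main R hK con n⟩

end Pool.Agent.Y612.Eq
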