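import Pool.Agent.Y612.Eq.Stm

/-!
# Clauses (part EQ-CLAUSE of the project of helper612; proof by helper43)
-/

set_option autoImplicit false

namespace Pool.Agent.Y612.Eq

open Finset
open scoped Classical

namespace ClauseAux

/-- all variables -/
abbrev X : Type := (Fin 6 ⊕ Fin 3) ⊕ (Fin 2 ⊕ (Fin 3 ⊕ Fin 3))

/-- the constants -/
def vc (j : Fin 6) : X := Sum.inl (Sum.inl j)
/-- the variables of the clause -/
def vx (k : Fin 3) : X := Sum.inl (Sum.inr k)
/-- the first auxiliary variable -/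
def vw' : X := Sum.inr (Sum.inl 0)
/-- the selector -/
def vw : X := Sum.inr (Sum.inl 1)
/-- a value which is `c 2` if `k` is selected -/
def vt (k : Fin 3) : X := Sum.inr (Sum.inr (Sum.inl k))
/-- a value which is `c 2` if the literal `k` is false -/
def vu (k : Fin 3) : X := Sum.inr (Sum.inr (Sum.inr k))

/-- the constants for the selector -/
def sel : Fin 3 → Fin 6 := ![3, 4, 5]

/-- one literal -/
def Lit (b : Fin 3 → Bool) (k : Fin 3) : Set (X → ℕ) :=
  {g | g (vc (sel k)) ≠ g (vc 2) ∧ (g (vt k) = g (vc (sel k)) ∨ g (vt k) = g (vc 2))} ∩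
  ({g | g (vc (cst (!b k))) ≠ g (vc 2) ∧ (g (vu k) = g (vc (cst (!b k))) ∨ g (vu k) = g (vc 2))} ∩
  ({g | g (vt k) ≠ g vw} ∩ ({g | g (vu k) ≠ g (vx k)} ∩ {g | g (vt k) ≠ g (vu k)})))

/-- everything -/
def All (b : Fin 3 → Bool) : Set (X → ℕ) :=
  {g | g (vc 3) ≠ g (vc 4) ∧ (g vw' = g (vc 3) ∨ g vw' = g (vc 4))} ∩
  ({g | g vw' ≠ g (vc 5) ∧ (g vw = g vw' ∨ g vw = g (vc 5))} ∩ {g | ∀ k, g ∈ Lit b k})

lemma cst_ne_sel (a : Bool) (l : Fin 3) : cst a ≠ sel l := by
  cases a <;> fin_cases l <;> decide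

lemma cst_ne_two (a : Bool) : cst a ≠ 2 := by
  cases a <;> decide

lemma two_ne_sel (l : Fin 3) : (2 : Fin 6) ≠ sel l := by
  fin_cases l <;> decide

lemma sel_inj : Function.Injective sel := by decide

lemma cst_not (a : Bool) : cst (!a) ≠ cst a := by
  cases a <;> decide

lemma pp_all_clause {ι : Type} {ar : ι → ℕ} {R : ∀ i, Set (Fin (ar i) → ℕ)} (hN : PP R NE)
    (h3 : PP R S3) (b : Fin 3 → Bool) : PP R (All b) := by
  unfold All
  refine pp_inter (pp_three h3 (vc 3) vw' (vc 4)) (pp_inter (pp_three h3 vw' vw (vc 5)) ?_)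
  refine pp_all fun k => ?_
  unfold Lit
  exact pp_inter (pp_three h3 (vc (sel k)) (vt k) (vc 2))
    (pp_inter (pp_three h3 (vc (cst (!b k))) (vu k) (vc 2))
      (pp_inter (pp_ne hN (vt k) vw) (pp_inter (pp_ne hN (vu k) (vx k)) (pp_ne hN (vt k) (vu k)))))

end ClauseAux

open ClauseAux in
theorem EQ_Clause : S_Clause := by
  intro ι ar R hN h3 b
  refine ⟨_, pp_exists (pp_all_clause hN h3 b), ?_⟩
  intro f hc hx
  have hne : ∀ i j : Fin 6, i ≠ j → f (Sum.inl i) ≠ f (Sum.inl j) := fun i j hij h => hij (hc h)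
  constructor
  · rintro ⟨g, ⟨h1, h2, hl⟩⟩
    have h1' : f (Sum.inl 3) ≠ f (Sum.inl 4) ∧
      (g (Sum.inl 0) = f (Sum.inl 3) ∨ g (Sum.inl 0) = f (Sum.inl 4)) := h1
    have h2' : g (Sum.inl 0) ≠ f (Sum.inl 5) ∧
      (g (Sum.inl 1) = g (Sum.inl 0) ∨ g (Sum.inl 1) = f (Sum.inl 5)) := h2
    obtain ⟨k, hk⟩ : ∃ k : Fin 3, g (Sum.inl 1) = f (Sum.inl (sel k)) := by
      rcases h2'.2 with h | h
      · rcases h1'.2 with h' | h'
        · exact ⟨0, h.trans h'⟩
        · exact ⟨1, h.trans h'⟩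
      · exact ⟨2, h⟩
    refine ⟨k, ?_⟩
    by_contra hcon
    have hxk : f (Sum.inr k) = f (Sum.inl (cst (!b k))) := by
      rcases hx k with h | h
      · cases hb : b k
        · exfalso
          apply hcon
          rw [hb, h]
          rfl
        · rw [h]
          rfl
      · cases hb : b k
        · rw [h]
          rfl
        · exfalso
          apply hcon
          rw [hb, h]
          rfl
    obtain ⟨l1, l2, l3, l4, l5⟩ := hl k
    have l1' : g (Sum.inr (Sum.inl k)) = f (Sum.inl (sel k)) ∨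
      g (Sum.inr (Sum.inl k)) = f (Sum.inl 2) := l1.2
    have l2' : g (Sum.inr (Sum.inr k)) = f (Sum.inl (cst (!b k))) ∨
      g (Sum.inr (Sum.inr k)) = f (Sum.inl 2) := l2.2
    have l3' : g (Sum.inr (Sum.inl k)) ≠ g (Sum.inl 1) := l3
    have l4' : g (Sum.inr (Sum.inr k)) ≠ f (Sum.inr k) := l4
    have l5' : g (Sum.inr (Sum.inl k)) ≠ g (Sum.inr (Sum.inr k)) := l5
    rw [hk] at l3'
    rw [hxk] at l4'
    rcases l1' with h | h
    · exact l3' h
    · rcases l2' with h' | h'
      · exact l4' h'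
      · exact l5' (h.trans h'.symm)
  · rintro ⟨k, hk⟩
    obtain ⟨w', hw1, hw2⟩ : ∃ w' : ℕ, (w' = f (Sum.inl 3) ∨ w' = f (Sum.inl 4)) ∧
        (f (Sum.inl (sel k)) = w' ∨ f (Sum.inl (sel k)) = f (Sum.inl 5)) := by
      fin_cases k
      · exact ⟨f (Sum.inl 3), Or.inl rfl, Or.inl rfl⟩
      · exact ⟨f (Sum.inl 4), Or.inr rfl, Or.inl rfl⟩
      · exact ⟨f (Sum.inl 3), Or.inl rfl, Or.inr rfl⟩
    have hw5 : w' ≠ f (Sum.inl 5) := by
      rcases hw1 with h | h
      · rw [h]
        exact hne 3 5 (by decide)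
      · rw [h]
        exact hne 4 5 (by decide)
    refine ⟨Sum.elim ![w', f (Sum.inl (sel k))] (Sum.elim
      (fun l => if l = k then f (Sum.inl 2) else f (Sum.inl (sel l)))
      (fun l => if f (Sum.inr l) = f (Sum.inl (cst (!b l))) then f (Sum.inl 2)
        else f (Sum.inl (cst (!b l))))), ?_, ?_, ?_⟩
    · show f (Sum.inl 3) ≠ f (Sum.inl 4) ∧ (w' = f (Sum.inl 3) ∨ w' = f (Sum.inl 4))
      exact ⟨hne 3 4 (by decide), hw1⟩
    · show w' ≠ f (Sum.inl 5) ∧
        (f (Sum.inl (sel k)) = w' ∨ f (Sum.inl (sel k)) = f (Sum.inl 5))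
      exact ⟨hw5, hw2⟩
    · intro l
      refine ⟨⟨?_, ?_⟩, ⟨?_, ?_⟩, ?_, ?_, ?_⟩
      · show f (Sum.inl (sel l)) ≠ f (Sum.inl 2)
        exact hne _ _ (two_ne_sel l).symm
      · show (if l = k then f (Sum.inl 2) else f (Sum.inl (sel l))) = f (Sum.inl (sel l)) ∨
          (if l = k then f (Sum.inl 2) else f (Sum.inl (sel l))) = f (Sum.inl 2)
        by_cases h : l = k
        · rw [if_pos h]
          exact Or.inr rfl
        · rw [if_neg h]
          exact Or.inl rfl
      · show f (Sum.inl (cst (!b l))) ≠ f (Sum.inl 2)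
        exact hne _ _ (cst_ne_two _)
      · show (if f (Sum.inr l) = f (Sum.inl (cst (!b l))) then f (Sum.inl 2)
          else f (Sum.inl (cst (!b l)))) = f (Sum.inl (cst (!b l))) ∨
          (if f (Sum.inr l) = f (Sum.inl (cst (!b l))) then f (Sum.inl 2)
          else f (Sum.inl (cst (!b l)))) = f (Sum.inl 2)
        by_cases h : f (Sum.inr l) = f (Sum.inl (cst (!b l)))
        · rw [if_pos h]
          exact Or.inr rfl
        · rw [if_neg h]
          exact Or.inl rfl
      · show (if l = k then f (Sum.inl 2) else f (Sum.inl (sel l))) ≠ f (Sum.inl (sel k))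
        by_cases h : l = k
        · rw [if_pos h]
          exact hne _ _ (two_ne_sel k)
        · rw [if_neg h]
          exact hne _ _ (fun h' => h (sel_inj h'))
      · show (if f (Sum.inr l) = f (Sum.inl (cst (!b l))) then f (Sum.inl 2)
          else f (Sum.inl (cst (!b l)))) ≠ f (Sum.inr l)
        by_cases h : f (Sum.inr l) = f (Sum.inl (cst (!b l)))
        · rw [if_pos h, h]
          exact hne _ _ (cst_ne_two _).symm
        · rw [if_neg h]
          exact fun h' => h h'.symm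
      · show (if l = k then f (Sum.inl 2) else f (Sum.inl (sel l))) ≠
          (if f (Sum.inr l) = f (Sum.inl (cst (!b l))) then f (Sum.inl 2)
          else f (Sum.inl (cst (!b l))))
        by_cases h : l = k
        · rw [if_pos h]
          have h2 : f (Sum.inr l) ≠ f (Sum.inl (cst (!b l))) := by
            rw [h, hk]
            exact hne _ _ (cst_not _).symm
          rw [if_neg h2]
          exact hne _ _ (cst_ne_two _).symm
        · rw [if_neg h]
          by_cases h2 : f (Sum.inr l) = f (Sum.inl (cst (!b l)))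
          · rw [if_pos h2]
            exact hne _ _ (two_ne_sel l).symm
          · rw [if_neg h2]
            exact hne _ _ (cst_ne_sel _ l).symm

end Pool.Agent.Y612.Eq
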