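import Mathlib

/-!
# Constraint satisfaction with templates on the natural numbers: definitions
-/

set_option autoImplicit false

namespace Pool.Agent.Y612.Eq

open Finset
open scoped Classical

/-- A constraint with variables in `V`: a relation symbol `i : ι` of arity `ar i` and a tuple of
variables. -/
abbrev Con {ι : Type} (ar : ι → ℕ) (V : Type) : Type := Σ i : ι, (Fin (ar i) → V)

section

variable {ι : Type} {ar : ι → ℕ}

/-- The assignment `z` satisfies the constraint `c` for the relations `R i` on the set `D`. -/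
def Holds {D : Type} (R : ∀ i, Set (Fin (ar i) → D)) {V : Type} (z : V → D) (c : Con ar V) : Prop :=
  (fun p => z (c.2 p)) ∈ R c.1

/-- The constraints `con i`, `i ∈ X`, can be satisfied together. -/
def Solvable {D : Type} (R : ∀ i, Set (Fin (ar i) → D)) {V I : Type} (con : I → Con ar V)
    (X : Finset I) : Prop :=
  ∃ z : V → D, ∀ i ∈ X, Holds R z (con i)

variable (R : ∀ i, Set (Fin (ar i) → ℕ))

/-- The relations are invariant under all permutations of `ℕ` (they are the relations with a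
first-order definition over `(ℕ; =)`). -/
def Inv : Prop := ∀ (σ : Equiv.Perm ℕ) (i : ι), ∀ f ∈ R i, (fun p => σ (f p)) ∈ R i

/-- A constant operation is a polymorphism. -/
def HasConst : Prop := ∃ a : ℕ, ∀ i, ∀ t ∈ R i, (fun _ => a) ∈ R i

/-- An injective binary operation is a polymorphism. -/
def HasInj : Prop := ∃ f : ℕ → ℕ → ℕ, (∀ a b a' b', f a b = f a' b' → a = a' ∧ b = b') ∧
  ∀ i, ∀ s ∈ R i, ∀ t ∈ R i, (fun p => f (s p) (t p)) ∈ R i

/-- Primitive positive definable, without equality atoms. -/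
def PP {W : Type} (P : Set (W → ℕ)) : Prop :=
  ∃ (U : Type) (_ : Fintype U) (J : List (Con ar (W ⊕ U))), ∀ f : W → ℕ,
    f ∈ P ↔ ∃ g : U → ℕ, ∀ c ∈ J, Holds R (Sum.elim f g) c

end

/-- different values -/
def NE : Set (Fin 2 → ℕ) := {f | f 0 ≠ f 1}

/-- the middle value is one of the outer values, which are different -/
def S3 : Set (Fin 3 → ℕ) := {f | f 0 ≠ f 2 ∧ (f 1 = f 0 ∨ f 1 = f 2)}

/-- the values of a tuple which agree -/
def ker {k : ℕ} (f : Fin k → ℕ) : Set (Fin k × Fin k) := {p | f p.1 = f p.2}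

/-- the relation on `(x, y, u, v)` that is used to define `S3` in the disjoint case -/
def Four (T : Set (Fin 4 → ℕ)) : Prop :=
  (∀ f ∈ T, f 0 = f 1 ∨ f 2 = f 3) ∧
  (∀ f : Fin 4 → ℕ, f 0 = f 1 → f 2 ≠ f 3 → f 0 ≠ f 2 → f 0 ≠ f 3 → f ∈ T) ∧
  (∀ f : Fin 4 → ℕ, f 2 = f 3 → f 0 ≠ f 1 → f 0 ≠ f 2 → f 1 ≠ f 2 → f ∈ T)

/-- six different constants `c 0, ..., c 5` and a value `x` which is `c 0` or `c 1` -/
def Base : Set (Fin 6 ⊕ Fin 1 → ℕ) :=
  {f | Function.Injective (fun j : Fin 6 => f (Sum.inl j)) ∧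
    (f (Sum.inr 0) = f (Sum.inl 0) ∨ f (Sum.inr 0) = f (Sum.inl 1))}

/-- the constant for a truth value -/
def cst (b : Bool) : Fin 6 := if b then 1 else 0

/-- `Q` says that one of three literals is true: the literal `k` is true if the value of its
variable, `f (inr k)`, is the constant for `b k` -/
def IsClause (b : Fin 3 → Bool) (Q : Set (Fin 6 ⊕ Fin 3 → ℕ)) : Prop :=
  ∀ f : Fin 6 ⊕ Fin 3 → ℕ, Function.Injective (fun j : Fin 6 => f (Sum.inl j)) →
    (∀ k, f (Sum.inr k) = f (Sum.inl 0) ∨ f (Sum.inr k) = f (Sum.inl 1)) →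
    (f ∈ Q ↔ ∃ k, f (Sum.inr k) = f (Sum.inl (cst (b k))))

end Pool.Agent.Y612.Eq
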