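import Pool.Agent.H630VC.FreeModel
import Pool.Agent.Y612.Eq.Defs

/-!
# Substitution in circuits
-/

set_option autoImplicit false

namespace Pool.Agent.Y612.Eq

open Finset H630VC
open scoped Classical

theorem fprog_comap {J J' : Type} {inp : Set (J' → ℝ)} {inp' : Set (J → ℝ)} (Y : J → J')
    (hin : ∀ f ∈ inp, (fun x => f (Y x)) ∈ inp') {l : List (J' → ℝ)}
    {q : List (List ((J' → ℝ) × ℝ))} (h : FProg inp l q) :
    FProg inp' (l.map fun f x => f (Y x))
      (q.map fun w => w.map fun p => ((fun x => p.1 (Y x)), p.2)) := by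
  induction h with
  | nil => exact FProg.nil
  | input h hf ih =>
    exact FProg.input ih (hin _ hf)
  | gate h hφ hf hg ih =>
    exact FProg.gate ih hφ (List.mem_map_of_mem hf) (List.mem_map_of_mem hg)
  | @free l q w ψ h hw ih =>
    have h1 := FProg.free (w := w.map fun p => ((fun x => p.1 (Y x)), p.2)) (ψ := ψ) ih (by
      intro p hp
      obtain ⟨p', hp', rfl⟩ := List.mem_map.1 hp
      exact List.mem_map_of_mem (hw _ hp'))
    have e : (fun x => ψ ((w.map fun p => ((fun x => p.1 (Y x)), p.2)).map fun p => p.2 ≤ p.1 x)) =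
        (fun x => ψ (w.map fun p => p.2 ≤ p.1 (Y x))) := by
      funext x
      rw [List.map_map]
      rfl
    rw [e] at h1
    exact h1

theorem wires_comap {J J' : Type} (Y : J → J') (q : List (List ((J' → ℝ) × ℝ))) :
    wires (q.map fun w => w.map fun p => ((fun x => p.1 (Y x)), p.2)) = wires q := by
  unfold wires
  rw [List.map_map]
  congr 1
  refine List.map_congr_left fun w _ => ?_
  simp

theorem combos_comap {J J' : Type} (Y : J → J') (q : List (List ((J' → ℝ) × ℝ))) :
    combos (q.map fun w => w.map fun p => ((fun x => p.1 (Y x)), p.2)) = combos q := by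
  unfold combos
  rw [List.map_map]
  congr 1
  refine List.map_congr_left fun w _ => ?_
  simp

end Pool.Agent.Y612.Eq
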