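import Pool.Agent.Y612.Eq.Stm

/-!
# Circuits if there is a constant polymorphism
-/

set_option autoImplicit false

namespace Pool.Agent.Y612.Eq

open Finset
open scoped Classical

theorem solvable_iff_const {ι : Type} {ar : ι → ℕ} {R : ∀ i, Set (Fin (ar i) → ℕ)}
    (h : HasConst R) {V I : Type} (con : I → Con ar V) (X : Finset I) :
    Solvable R con X ↔ ∀ i ∈ X, R (con i).1 ≠ ∅ := by
  obtain ⟨a, ha⟩ := h
  constructor
  · rintro ⟨z, hz⟩ i hi h0
    have h1 : (fun p => z ((con i).2 p)) ∈ R (con i).1 := hz i hi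
    rw [h0] at h1
    exact h1
  · intro hX
    refine ⟨fun _ => a, fun i hi => ?_⟩
    obtain ⟨t, ht⟩ := Set.nonempty_iff_ne_empty.2 (hX i hi)
    exact ha _ t ht

theorem EQ_ConstCirc : S_ConstCirc := by
  intro ι ar R hR V I _ con
  obtain ⟨l, hl⟩ : ∃ l : List (Fn I), l = ((univ : Finset I).filter
      fun i => R (con i).1 = ∅).toList.map (fun i => fun x : I → Bool => x i) := ⟨_, rfl⟩
  have h1 := Cost.anyL (L0 := ([] : List (Fn I))) (k := 0) l (by
    intro f hf
    rw [hl, List.mem_map] at hf
    obtain ⟨i, -, rfl⟩ := hf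
    exact Cost.of_avail (Or.inr (Or.inl ⟨i, rfl⟩)))
  obtain ⟨L, k1, -, k3, k4⟩ := h1 [] MCirc.nil (List.Subset.refl _)
  refine ⟨L, k1, ?_, ?_⟩
  · have h2 : l.length ≤ Fintype.card I := by
      rw [hl, List.length_map, Finset.length_toList]
      exact (card_filter_le _ _).trans_eq card_univ
    rw [List.length_nil] at k3
    omega
  · have e : (fun x : I → Bool => decide (¬ Solvable R con (univ.filter fun i => x i = true))) =
        fun x => l.any fun f => f x := by
      funext x
      rw [Bool.eq_iff_iff, decide_eq_true_iff, List.any_eq_true, solvable_iff_const hR, hl]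
      constructor
      · intro h3
        push Not at h3
        obtain ⟨i, hi, h0⟩ := h3
        rw [mem_filter] at hi
        exact ⟨fun x => x i, List.mem_map.2 ⟨i, mem_toList.2 (mem_filter.2 ⟨mem_univ _, h0⟩), rfl⟩,
          hi.2⟩
      · rintro ⟨f, hf, hx⟩ h4
        rw [List.mem_map] at hf
        obtain ⟨i, hi, rfl⟩ := hf
        rw [mem_toList, mem_filter] at hi
        exact h4 i (mem_filter.2 ⟨mem_univ _, hx⟩) hi.2
    rw [e]
    exact k4

end Pool.Agent.Y612.Eq
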