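import Pool.Agent.Y612.Eq.Defs

/-!
# Primitive positive constructions of the triangle
-/

set_option autoImplicit false

namespace Pool.Agent.Y612.Eq

open Finset
open scoped Classical

section

variable {ι : Type} {ar : ι → ℕ} {D : Type} (R : ∀ i, Set (Fin (ar i) → D))

/-- `P` is primitive positive definable: there are finitely many further variables (`U`), atoms (`J`)
and equalities (`Q`), such that `P` holds for `f` if and only if the further variables have values
such that all atoms and all equalities hold. -/
def PPDef {W : Type} (P : Set (W → D)) : Prop :=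
  ∃ (U : Type) (_ : Fintype U) (J : List (Con ar (W ⊕ U))) (Q : List ((W ⊕ U) × (W ⊕ U))),
    ∀ f : W → D, f ∈ P ↔ ∃ g : U → D, (∀ c ∈ J, Holds R (Sum.elim f g) c) ∧
      ∀ e ∈ Q, Sum.elim f g e.1 = Sum.elim f g e.2

/-- The structure with the relations `R i` pp-constructs the triangle: the set of `d`-tuples with a
primitive positive definable binary relation `P` is homomorphically equivalent to the complete graph
on three vertices (`a` and `c` are the homomorphisms). -/
def ConstructsK3 : Prop := ∃ (d : ℕ) (P : Set (Fin d ⊕ Fin d → D)), PPDef R P ∧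
  (∃ a : Fin 3 → Fin d → D, ∀ i j, i ≠ j → Sum.elim (a i) (a j) ∈ P) ∧
  ∃ c : (Fin d → D) → Fin 3, ∀ x y, Sum.elim x y ∈ P → c x ≠ c y

end

end Pool.Agent.Y612.Eq
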