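import Pool.Agent.Y612.Eq.Defs2
import Pool.Agent.Y612.CspDefs
import Pool.Agent.H630VC.FreeModel

/-!
# Easy and hard templates
-/

set_option autoImplicit false

namespace Pool.Agent.Y612.Eq

open Finset H630VC
open scoped Classical

/-- the input gates: the bits of a set, and constants -/
def bits (I : Type) : Set (Finset I → ℝ) :=
  {f | (∃ p : I, f = fun X => if p ∈ X then 1 else 0) ∨ ∃ c : ℝ, f = fun _ => c}

section

variable {ι : Type} {ar : ι → ℕ} {D : Type} (R : ∀ i, Set (Fin (ar i) → D))

/-- There are circuits of AND and OR gates of polynomial size: for every instance, that is all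
constraints `con i`, `i : I`, with variables in `V`, such a circuit reads which of the constraints
are present and decides whether the present constraints are unsatisfiable. -/
def Easy : Prop := ∃ c : ℕ, ∀ (V I : Type) [Fintype V] [Fintype I] (con : I → Con ar V),
  ∃ L : List ((I → Bool) → Bool), MCirc I L ∧
    L.length ≤ c * (Fintype.card V + Fintype.card I + 1) ^ c ∧
    Avail L (fun x => decide (¬ Solvable R con (univ.filter fun i => x i = true)))

/-- For `0 ≤ γ < 1`, `ε > 0` and every large `N` there is an instance whose number of variables plus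
number of constraints is at most `N`, such that randomised circuits of arbitrary monotone real gates
of fan-in two, with two-sided error, which read the set of the present constraints and recognise the
unsatisfiable sets of constraints have size at least `exp (N ^ ((1 - γ) / 2 - ε))`, even if they have
further, arbitrary gates with `combos ≤ N ^ γ`. -/
def Hard : Prop := ∀ γ : ℝ, 0 ≤ γ → γ < 1 → ∀ ε : ℝ, 0 < ε → ∃ N₀ : ℕ, ∀ N : ℕ, N₀ ≤ N →
  ∃ (V I : Type) (_ : Fintype V) (_ : Fintype I) (con : I → Con ar V),
    Fintype.card V + Fintype.card I ≤ N ∧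
    ∀ (K : Type) [Fintype K] [Nonempty K] (l : K → List (Finset I → ℝ))
      (q : K → List (List ((Finset I → ℝ) × ℝ))) (f : K → Finset I → ℝ) (θ : ℝ),
      (∀ r, FProg (bits I) (l r) (q r)) → (∀ r, f r ∈ l r) →
      (∀ r, (combos (q r) : ℝ) ≤ (N : ℝ) ^ γ) →
      (∀ X : Finset I, ¬ Solvable R con X →
        3 * Fintype.card K ≤ 4 * (univ.filter fun r => θ ≤ f r X).card) →
      (∀ X : Finset I, Solvable R con X →
        3 * Fintype.card K ≤ 4 * (univ.filter fun r => f r X < θ).card) →
      ∃ r, Real.exp ((N : ℝ) ^ ((1 - γ) / 2 - ε)) ≤ (l r).length + wires (q r)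

end

/-- no template is easy and hard -/
def S_Excl : Prop := ∀ (ι : Type) (ar : ι → ℕ) (D : Type) (R : ∀ i, Set (Fin (ar i) → D)),
  Easy R → Hard R → False

end Pool.Agent.Y612.Eq
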