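import Mathlib
import Pool.Agent.Y612.Eq.Defs3

/-!
# No template is easy and hard
-/

set_option autoImplicit false

namespace Pool.Agent.Y612.Eq

open Finset H630VC
open scoped Classical

/-- exponentials are larger than polynomials -/
theorem exists_large (c N₀ : ℕ) : ∃ N : ℕ, N₀ ≤ N ∧
    ((c * (N + 1) ^ c + N + 2 : ℕ) : ℝ) < Real.exp ((N : ℝ) ^ ((1 - (0 : ℝ)) / 2 - 1 / 4)) := by
  have hc4 : (0 : ℝ) < (c : ℝ) + 4 := by positivity
  have h1 := (Real.tendsto_pow_mul_exp_neg_atTop_nhds_zero (4 * c + 4)).comp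
    (tendsto_natCast_atTop_atTop (R := ℝ))
  have h2 := h1.eventually (gt_mem_nhds (show (0 : ℝ) < 1 / (((c : ℝ) + 4) * Real.exp 1) from
    div_pos one_pos (mul_pos hc4 (Real.exp_pos 1))))
  obtain ⟨m, hm1, hm2⟩ := (h2.and (Filter.eventually_ge_atTop (N₀ + 1))).exists
  obtain ⟨M, rfl⟩ : ∃ M, m = M + 1 := ⟨m - 1, by omega⟩
  refine ⟨M ^ 4, (by omega : N₀ ≤ M).trans (Nat.le_self_pow (by norm_num) M), ?_⟩
  have e1 : (((M ^ 4 : ℕ) : ℝ)) ^ ((1 - (0 : ℝ)) / 2 - 1 / 4) = M := by
    have e2 : (1 - (0 : ℝ)) / 2 - 1 / 4 = ((4 : ℕ) : ℝ)⁻¹ := by norm_num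
    rw [e2, Nat.cast_pow, Real.pow_rpow_inv_natCast (Nat.cast_nonneg M) (by norm_num)]
  rw [e1]
  have h3 : c * (M ^ 4 + 1) ^ c + M ^ 4 + 2 ≤ (c + 4) * (M + 1) ^ (4 * c + 4) := by
    have a1 : M ^ 4 + 1 ≤ (M + 1) ^ 4 := by
      have : (M + 1) ^ 4 = M ^ 4 + 1 + (4 * M ^ 3 + 6 * M ^ 2 + 4 * M) := by ring
      omega
    have a2 : (M ^ 4 + 1) ^ c ≤ (M + 1) ^ (4 * c + 4) := by
      calc (M ^ 4 + 1) ^ c ≤ ((M + 1) ^ 4) ^ c := Nat.pow_le_pow_left a1 c
        _ = (M + 1) ^ (4 * c) := by rw [pow_mul]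
        _ ≤ (M + 1) ^ (4 * c + 4) := Nat.pow_le_pow_right (by omega) (by omega)
    have a3 : M ^ 4 + 1 ≤ (M + 1) ^ (4 * c + 4) :=
      a1.trans (Nat.pow_le_pow_right (by omega) (by omega))
    have a4 : c * (M ^ 4 + 1) ^ c ≤ c * (M + 1) ^ (4 * c + 4) := Nat.mul_le_mul_left c a2
    have a5 : (c + 4) * (M + 1) ^ (4 * c + 4) =
        c * (M + 1) ^ (4 * c + 4) + 4 * (M + 1) ^ (4 * c + 4) := by ring
    omega
  have h4 : ((c * (M ^ 4 + 1) ^ c + M ^ 4 + 2 : ℕ) : ℝ) ≤
      ((c : ℝ) + 4) * ((M + 1 : ℕ) : ℝ) ^ (4 * c + 4) := by exact_mod_cast h3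
  refine lt_of_le_of_lt h4 ?_
  have h5 : ((M + 1 : ℕ) : ℝ) ^ (4 * c + 4) * Real.exp (-((M + 1 : ℕ) : ℝ)) <
      1 / (((c : ℝ) + 4) * Real.exp 1) := hm1
  have h6 : Real.exp (-((M + 1 : ℕ) : ℝ)) * (Real.exp 1 * Real.exp (M : ℝ)) = 1 := by
    rw [← Real.exp_add, ← Real.exp_add]
    have : -((M + 1 : ℕ) : ℝ) + (1 + (M : ℝ)) = 0 := by
      push_cast
      ring
    rw [this, Real.exp_zero]
  rw [lt_div_iff₀ (mul_pos hc4 (Real.exp_pos 1))] at h5
  have h7 : 0 < Real.exp (M : ℝ) := Real.exp_pos _
  calc ((c : ℝ) + 4) * ((M + 1 : ℕ) : ℝ) ^ (4 * c + 4)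
      = ((M + 1 : ℕ) : ℝ) ^ (4 * c + 4) * Real.exp (-((M + 1 : ℕ) : ℝ)) *
        (((c : ℝ) + 4) * Real.exp 1) * Real.exp (M : ℝ) := by
        linear_combination (-((c : ℝ) + 4) * ((M + 1 : ℕ) : ℝ) ^ (4 * c + 4)) * h6
    _ < 1 * Real.exp (M : ℝ) := mul_lt_mul_of_pos_right h5 h7
    _ = Real.exp (M : ℝ) := one_mul _

/-- the real function of a Boolean function -/
noncomputable def prm {I : Type} (F : (I → Bool) → Bool) (X : Finset I) : ℝ :=
  if F (fun i => decide (i ∈ X)) = true then 1 else 0

/-- the input gates -/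
noncomputable def base (I : Type) [Fintype I] : List (Finset I → ℝ) :=
  ((univ : Finset I).toList.map fun p X => if p ∈ X then 1 else 0) ++
    [fun _ => 0, fun _ => 1]

theorem fprog_inputs {I : Type} (l : List (Finset I → ℝ)) (hl : ∀ f ∈ l, f ∈ bits I) :
    FProg (bits I) l [] := by
  induction l with
  | nil => exact FProg.nil
  | cons f l ih =>
    exact FProg.input (ih fun g hg => hl g (List.mem_cons_of_mem _ hg)) (hl f List.mem_cons_self)

theorem fprog_base (I : Type) [Fintype I] : FProg (bits I) (base I) [] := by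
  apply fprog_inputs
  intro f hf
  unfold base at hf
  rw [List.mem_append, List.mem_map] at hf
  rcases hf with ⟨p, -, rfl⟩ | hf
  · exact Or.inl ⟨p, rfl⟩
  · right
    simp only [List.mem_cons, List.not_mem_nil, or_false] at hf
    rcases hf with rfl | rfl
    · exact ⟨0, rfl⟩
    · exact ⟨1, rfl⟩

theorem length_base (I : Type) [Fintype I] : (base I).length = Fintype.card I + 2 := by
  unfold base
  rw [List.length_append, List.length_map, Finset.length_toList, Finset.card_univ]
  rfl

theorem avail_mem {I : Type} [Fintype I] {L : List ((I → Bool) → Bool)} {f : (I → Bool) → Bool}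
    (hf : Avail L f) : prm f ∈ L.map prm ++ base I := by
  rw [List.mem_append]
  rcases hf with ⟨b, rfl⟩ | ⟨i, rfl⟩ | hf
  · right
    unfold base
    rw [List.mem_append]
    right
    cases b with
    | false =>
      have : prm (fun _ : I → Bool => false) = fun _ => (0 : ℝ) := by
        funext X
        simp [prm]
      rw [this]
      simp
    | true =>
      have : prm (fun _ : I → Bool => true) = fun _ => (1 : ℝ) := by
        funext X
        simp [prm]
      rw [this]
      simp
  · right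
    unfold base
    rw [List.mem_append, List.mem_map]
    left
    refine ⟨i, Finset.mem_toList.2 (Finset.mem_univ i), ?_⟩
    funext X
    unfold prm
    simp
  · left
    exact List.mem_map_of_mem hf

theorem fprog_circ {I : Type} [Fintype I] {L : List ((I → Bool) → Bool)} (h : MCirc I L) :
    FProg (bits I) (L.map prm ++ base I) [] := by
  induction h with
  | nil => exact fprog_base I
  | @and L f g _ hf hg ih =>
    have h1 := FProg.gate (φ := fun a b => min a b) ih
      (fun a a' b b' h1 h2 => min_le_min h1 h2) (avail_mem hf) (avail_mem hg)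
    have key : ∀ a b : Bool, min (if a = true then (1 : ℝ) else 0) (if b = true then 1 else 0) =
        if (a && b) = true then 1 else 0 := by
      intro a b
      cases a <;> cases b <;> simp
    have h2 : (fun X : Finset I => min (prm f X) (prm g X)) = prm (fun x => f x && g x) := by
      funext X
      exact key _ _
    rw [List.map_cons, List.cons_append, ← h2]
    exact h1
  | @or L f g _ hf hg ih =>
    have h1 := FProg.gate (φ := fun a b => max a b) ih
      (fun a a' b b' h1 h2 => max_le_max h1 h2) (avail_mem hf) (avail_mem hg)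
    have key : ∀ a b : Bool, max (if a = true then (1 : ℝ) else 0) (if b = true then 1 else 0) =
        if (a || b) = true then 1 else 0 := by
      intro a b
      cases a <;> cases b <;> simp
    have h2 : (fun X : Finset I => max (prm f X) (prm g X)) = prm (fun x => f x || g x) := by
      funext X
      exact key _ _
    rw [List.map_cons, List.cons_append, ← h2]
    exact h1

/-- no template is easy and hard -/
theorem EQ_Excl : S_Excl := by
  intro ι ar D R hE hH
  obtain ⟨c, hc⟩ := hE
  obtain ⟨N₀, hN₀⟩ := hH 0 le_rfl zero_lt_one (1 / 4) (by norm_num)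
  obtain ⟨N, hN, hlarge⟩ := exists_large c N₀
  obtain ⟨V, I, _, _, con, hcard, hmain⟩ := hN₀ N hN
  obtain ⟨L, hL, hLlen, hav⟩ := hc V I con
  set F : (I → Bool) → Bool :=
    fun x => decide (¬ Solvable R con (univ.filter fun i => x i = true)) with hF
  have hfil : ∀ X : Finset I, (univ.filter fun i => decide (i ∈ X) = true) = X := by
    intro X
    ext i
    simp
  have hF1 : ∀ X : Finset I, ¬ Solvable R con X → prm F X = 1 := by
    intro X hX
    unfold prm
    rw [if_pos]
    rw [hF]
    dsimp only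
    rw [hfil X]
    exact decide_eq_true hX
  have hF0 : ∀ X : Finset I, Solvable R con X → prm F X = 0 := by
    intro X hX
    unfold prm
    rw [if_neg]
    rw [hF]
    dsimp only
    rw [hfil X]
    simpa using hX
  obtain ⟨r, hr⟩ := hmain Unit (fun _ => L.map prm ++ base I) (fun _ => []) (fun _ => prm F) 1
    (fun _ => fprog_circ hL) (fun _ => avail_mem hav)
    (fun _ => by
      rw [Real.rpow_zero]
      simp [combos])
    (fun X hX => by
      have h1 : (univ.filter fun _ : Unit => (1 : ℝ) ≤ prm F X) = univ := by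
        rw [Finset.filter_true_of_mem]
        intro _ _
        rw [hF1 X hX]
      rw [h1]
      simp)
    (fun X hX => by
      have h1 : (univ.filter fun _ : Unit => prm F X < 1) = univ := by
        rw [Finset.filter_true_of_mem]
        intro _ _
        rw [hF0 X hX]
        exact zero_lt_one
      rw [h1]
      simp)
  have hlen : (L.map prm ++ base I).length ≤ c * (N + 1) ^ c + N + 2 := by
    rw [List.length_append, List.length_map, length_base]
    have h1 : c * (Fintype.card V + Fintype.card I + 1) ^ c ≤ c * (N + 1) ^ c :=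
      Nat.mul_le_mul_left c (Nat.pow_le_pow_left (by omega) c)
    omega
  have hw : wires ([] : List (List ((Finset I → ℝ) × ℝ))) = 0 := rfl
  have h2 : (((L.map prm ++ base I).length : ℕ) : ℝ) ≤ ((c * (N + 1) ^ c + N + 2 : ℕ) : ℝ) := by
    exact_mod_cast hlen
  rw [hw, Nat.cast_zero, add_zero] at hr
  linarith

end Pool.Agent.Y612.Eq
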