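import Pool.Agent.Y612.Eq.Stm

/-!
# From the four-place relation to the three-place relation
-/

set_option autoImplicit false

namespace Pool.Agent.Y612.Eq

theorem EQ_FourThree : S_FourThree := by
  intro ι ar R hne T hT hF
  obtain ⟨h1, h2, h3⟩ := hF
  have hP := pp_inter
    (pp_inter (pp_four (W := Fin 3 ⊕ Fin 3) hT (Sum.inl 1) (Sum.inl 0) (Sum.inr 0) (Sum.inr 2))
      (pp_four (W := Fin 3 ⊕ Fin 3) hT (Sum.inl 1) (Sum.inl 2) (Sum.inr 2) (Sum.inr 1)))
    (pp_inter (pp_ne (W := Fin 3 ⊕ Fin 3) hne (Sum.inr 0) (Sum.inr 1))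
      (pp_ne (W := Fin 3 ⊕ Fin 3) hne (Sum.inl 0) (Sum.inl 2)))
  refine pp_congr (pp_exists hP) (fun f => ?_)
  simp only [Set.mem_setOf_eq, Set.mem_inter_iff, Sum.elim_inl, Sum.elim_inr, S3]
  constructor
  · rintro ⟨h02, h⟩
    rcases h with h | h
    · refine ⟨![f 0 + f 1 + f 2 + 2, f 0 + f 1 + f 2 + 1, f 0 + f 1 + f 2 + 1], ⟨?_, ?_⟩, ?_, h02⟩
      · apply h2
        · exact h
        · show f 0 + f 1 + f 2 + 2 ≠ f 0 + f 1 + f 2 + 1
          omega
        · show f 1 ≠ f 0 + f 1 + f 2 + 2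
          omega
        · show f 1 ≠ f 0 + f 1 + f 2 + 1
          omega
      · apply h3
        · rfl
        · show f 1 ≠ f 2
          rw [h]
          exact h02
        · show f 1 ≠ f 0 + f 1 + f 2 + 1
          omega
        · show f 2 ≠ f 0 + f 1 + f 2 + 1
          omega
      · show f 0 + f 1 + f 2 + 2 ≠ f 0 + f 1 + f 2 + 1
        omega
    · refine ⟨![f 0 + f 1 + f 2 + 1, f 0 + f 1 + f 2 + 2, f 0 + f 1 + f 2 + 1], ⟨?_, ?_⟩, ?_, h02⟩
      · apply h3
        · rfl
        · show f 1 ≠ f 0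
          rw [h]
          exact fun h' => h02 h'.symm
        · show f 1 ≠ f 0 + f 1 + f 2 + 1
          omega
        · show f 0 ≠ f 0 + f 1 + f 2 + 1
          omega
      · apply h2
        · exact h
        · show f 0 + f 1 + f 2 + 1 ≠ f 0 + f 1 + f 2 + 2
          omega
        · show f 1 ≠ f 0 + f 1 + f 2 + 1
          omega
        · show f 1 ≠ f 0 + f 1 + f 2 + 2
          omega
      · show f 0 + f 1 + f 2 + 1 ≠ f 0 + f 1 + f 2 + 2
        omega
  · rintro ⟨g, ⟨ha, hb⟩, hg, h02⟩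
    refine ⟨h02, ?_⟩
    rcases h1 _ ha with h | h
    · left
      exact h
    · rcases h1 _ hb with h' | h'
      · right
        exact h'
      · exfalso
        have e1 : g 0 = g 2 := h
        have e2 : g 2 = g 1 := h'
        exact hg (e1.trans e2)

end Pool.Agent.Y612.Eq
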