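import Pool.Agent.Y612.Eq.Stm2

/-!
# The reduction of 3-SAT to 3-colouring (job EQ2-GRAPH)
-/

set_option autoImplicit false

namespace Pool.Agent.Y612.Eq

namespace Gr

/-- the vertices -/
abbrev GG (V I : Type) : Type := Fin 3 ⊕ (V × Bool ⊕ I × Fin 6)

/-- the edges -/
abbrev EE (V I : Type) : Type := Fin 3 ⊕ (V × Fin 3 ⊕ I × Fin 12)

variable {V I : Type}

/-- the palette: `0` is true, `1` is false, `2` is the third colour -/
def pal (k : Fin 3) : GG V I := Sum.inl k

/-- the vertex of a literal -/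
def lit (l : V × Bool) : GG V I := Sum.inr (Sum.inl l)

/-- the vertices of the clause `i` -/
def nd (i : I) (k : Fin 6) : GG V I := Sum.inr (Sum.inr (i, k))

/-- the ends of the edges -/
def endsG (w : I → Fin 3 → V × Bool) : EE V I → GG V I × GG V I
  | .inl k => (![pal 0, pal 1, pal 0] k, ![pal 1, pal 2, pal 2] k)
  | .inr (.inl (v, k)) =>
    (![lit (v, true), lit (v, true), lit (v, false)] k, ![lit (v, false), pal 2, pal 2] k)
  | .inr (.inr (i, k)) =>
    (![lit (w i 0), lit (w i 1), nd i 0, nd i 0, nd i 1, nd i 2, lit (w i 2), nd i 3, nd i 3,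
        nd i 4, nd i 5, nd i 5] k,
      ![nd i 0, nd i 1, nd i 1, nd i 2, nd i 2, nd i 3, nd i 4, nd i 4, nd i 5, nd i 5, pal 1,
        pal 2] k)

/-- the clause to which an edge belongs -/
def sigG : EE V I → Option I
  | .inl _ => none
  | .inr (.inl _) => none
  | .inr (.inr (i, _)) => some i

/-- the colours inside the gadget for the disjunction -/
def pp (x y : Fin 3) : Fin 3 := if x = 0 then 1 else if y = 0 then 2 else 0

/-- the colours inside the gadget for the disjunction -/
def qq (x y : Fin 3) : Fin 3 := if x = 0 then 2 else if y = 0 then 1 else 2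

/-- the colour of the output of the gadget for the disjunction -/
def oo (x y : Fin 3) : Fin 3 := if x = 0 then 0 else if y = 0 then 0 else 1

lemma gadget : ∀ x y : Fin 3, x ≠ 2 → y ≠ 2 → x ≠ pp x y ∧ y ≠ qq x y ∧ pp x y ≠ qq x y ∧
    pp x y ≠ oo x y ∧ qq x y ≠ oo x y ∧ oo x y ≠ 2 ∧ (x = 0 ∨ y = 0 → oo x y = 0) := by
  decide

lemma back (f p q o : Fin 3) (h1 : f ≠ p) (h2 : f ≠ q) (h3 : p ≠ q) (h4 : p ≠ o) (h5 : q ≠ o) :
    o = f := by
  have h : ∀ f p q o : Fin 3, (f ≠ p ∧ f ≠ q ∧ p ≠ q ∧ p ≠ o ∧ q ≠ o) → o = f := by decide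
  exact h f p q o ⟨h1, h2, h3, h4, h5⟩

lemma third (t f b x : Fin 3) (h1 : t ≠ f) (h2 : f ≠ b) (h3 : t ≠ b) (h4 : x ≠ b) (h5 : x ≠ t) :
    x = f := by
  have h : ∀ t f b x : Fin 3, (t ≠ f ∧ f ≠ b ∧ t ≠ b ∧ x ≠ b ∧ x ≠ t) → x = f := by decide
  exact h t f b x ⟨h1, h2, h3, h4, h5⟩

lemma other : ∀ t f b x y : Fin 3, t ≠ f → f ≠ b → t ≠ b → x ≠ b → y ≠ b → x ≠ y →
    (y = t ↔ x ≠ t) := by
  decide

/-- the colouring of an assignment -/
def col (w : I → Fin 3 → V × Bool) (τ : V → Bool) : GG V I → Fin 3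
  | .inl k => k
  | .inr (.inl l) => if τ l.1 = l.2 then 0 else 1
  | .inr (.inr (i, k)) =>
    let x : Fin 3 := if τ (w i 0).1 = (w i 0).2 then 0 else 1
    let y : Fin 3 := if τ (w i 1).1 = (w i 1).2 then 0 else 1
    let z : Fin 3 := if τ (w i 2).1 = (w i 2).2 then 0 else 1
    ![pp x y, qq x y, oo x y, pp (oo x y) z, qq (oo x y) z, oo (oo x y) z] k

end Gr

open Gr in
theorem EQ_Graph : S_Graph := by
  classical
  refine ⟨18, ?_⟩
  intro V I _ _ cl hcl
  choose w hw using hcl
  refine ⟨GG V I, EE V I, inferInstance, inferInstance, endsG w, sigG, ?_, ?_⟩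
  · simp only [Fintype.card_sum, Fintype.card_prod, Fintype.card_fin, Fintype.card_bool]
    omega
  · intro X
    constructor
    · rintro ⟨κ, hκ⟩
      have htf : κ (pal 0) ≠ κ (pal 1) := hκ (Sum.inl 0) (fun i hi => by simp [sigG] at hi)
      have hfb : κ (pal 1) ≠ κ (pal 2) := hκ (Sum.inl 1) (fun i hi => by simp [sigG] at hi)
      have htb : κ (pal 0) ≠ κ (pal 2) := hκ (Sum.inl 2) (fun i hi => by simp [sigG] at hi)
      have hv0 : ∀ v, κ (lit (v, true)) ≠ κ (lit (v, false)) := fun v =>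
        hκ (Sum.inr (Sum.inl (v, 0))) (fun i hi => by simp [sigG] at hi)
      have hv1 : ∀ v, κ (lit (v, true)) ≠ κ (pal 2) := fun v =>
        hκ (Sum.inr (Sum.inl (v, 1))) (fun i hi => by simp [sigG] at hi)
      have hv2 : ∀ v, κ (lit (v, false)) ≠ κ (pal 2) := fun v =>
        hκ (Sum.inr (Sum.inl (v, 2))) (fun i hi => by simp [sigG] at hi)
      have hlit : ∀ l : V × Bool, κ (lit l) ≠ κ (pal 2) := by
        rintro ⟨v, s⟩
        cases s
        · exact hv2 v
        · exact hv1 v
      have hτ : ∀ l : V × Bool, κ (lit l) = κ (pal 0) →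
          decide (κ (lit (l.1, true)) = κ (pal 0)) = l.2 := by
        rintro ⟨v, s⟩ h
        cases s
        · have := (other _ _ _ _ _ htf hfb htb (hv1 v) (hv2 v) (hv0 v)).1 h
          simpa using this
        · simpa using h
      refine ⟨fun v => decide (κ (lit (v, true)) = κ (pal 0)), fun i hi => ?_⟩
      have hc : ∀ k : Fin 12, κ (endsG w (Sum.inr (Sum.inr (i, k)))).1 ≠
          κ (endsG w (Sum.inr (Sum.inr (i, k)))).2 := by
        intro k
        refine hκ (Sum.inr (Sum.inr (i, k))) (fun j hj => ?_)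
        have : i = j := by simpa [sigG] using hj
        rw [← this]
        exact hi
      have c0 : κ (lit (w i 0)) ≠ κ (nd i 0) := hc 0
      have c1 : κ (lit (w i 1)) ≠ κ (nd i 1) := hc 1
      have c2 : κ (nd i 0) ≠ κ (nd i 1) := hc 2
      have c3 : κ (nd i 0) ≠ κ (nd i 2) := hc 3
      have c4 : κ (nd i 1) ≠ κ (nd i 2) := hc 4
      have c5 : κ (nd i 2) ≠ κ (nd i 3) := hc 5
      have c6 : κ (lit (w i 2)) ≠ κ (nd i 4) := hc 6
      have c7 : κ (nd i 3) ≠ κ (nd i 4) := hc 7
      have c8 : κ (nd i 3) ≠ κ (nd i 5) := hc 8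
      have c9 : κ (nd i 4) ≠ κ (nd i 5) := hc 9
      have c10 : κ (nd i 5) ≠ κ (pal 1) := hc 10
      have key : ∃ k, κ (lit (w i k)) = κ (pal 0) := by
        by_contra hcon
        push Not at hcon
        have x0 := third _ _ _ _ htf hfb htb (hlit (w i 0)) (hcon 0)
        have x1 := third _ _ _ _ htf hfb htb (hlit (w i 1)) (hcon 1)
        have x2 := third _ _ _ _ htf hfb htb (hlit (w i 2)) (hcon 2)
        rw [x0] at c0
        rw [x1] at c1
        rw [x2] at c6
        have o1 := back _ _ _ _ c0 c1 c2 c3 c4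
        rw [o1] at c5
        exact c10 (back _ _ _ _ c5 c6 c7 c8 c9)
      obtain ⟨k, hk⟩ := key
      exact ⟨w i k, (hw i _).2 ⟨k, rfl⟩, hτ _ hk⟩
    · rintro ⟨τ, hτ⟩
      have hl : ∀ l : V × Bool, (if τ l.1 = l.2 then (0 : Fin 3) else 1) ≠ 2 := by
        intro l
        split_ifs <;> decide
      refine ⟨col w τ, ?_⟩
      rintro (k | ⟨v, k⟩ | ⟨i, k⟩) he
      · fin_cases k
        · show (0 : Fin 3) ≠ 1
          decide
        · show (1 : Fin 3) ≠ 2
          decide
        · show (0 : Fin 3) ≠ 2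
          decide
      · fin_cases k
        · show (if τ v = true then (0 : Fin 3) else 1) ≠ (if τ v = false then 0 else 1)
          cases τ v <;> decide
        · exact hl (v, true)
        · exact hl (v, false)
      · have hi : i ∈ X := he i rfl
        obtain ⟨l, hl1, hl2⟩ := hτ i hi
        obtain ⟨k', hk'⟩ := (hw i l).1 hl1
        obtain ⟨x, hx⟩ : ∃ x : Fin 3, x = if τ (w i 0).1 = (w i 0).2 then 0 else 1 := ⟨_, rfl⟩
        obtain ⟨y, hy⟩ : ∃ y : Fin 3, y = if τ (w i 1).1 = (w i 1).2 then 0 else 1 := ⟨_, rfl⟩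
        obtain ⟨z, hz⟩ : ∃ z : Fin 3, z = if τ (w i 2).1 = (w i 2).2 then 0 else 1 := ⟨_, rfl⟩
        have hx2 : x ≠ 2 := by rw [hx]; exact hl _
        have hy2 : y ≠ 2 := by rw [hy]; exact hl _
        have hz2 : z ≠ 2 := by rw [hz]; exact hl _
        have hor : x = 0 ∨ y = 0 ∨ z = 0 := by
          have h0 : τ (w i k').1 = (w i k').2 := by rw [hk']; exact hl2
          have h4 : ∀ k : Fin 3, k = 0 ∨ k = 1 ∨ k = 2 := by decide
          have h3 := h4 k'
          rcases h3 with h3 | h3 | h3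
          · left
            rw [h3] at h0
            rw [hx, if_pos h0]
          · right; left
            rw [h3] at h0
            rw [hy, if_pos h0]
          · right; right
            rw [h3] at h0
            rw [hz, if_pos h0]
        obtain ⟨g1, g2, g3, g4, g5, g6, g7⟩ := gadget x y hx2 hy2
        obtain ⟨r1, r2, r3, r4, r5, r6, r7⟩ := gadget (oo x y) z g6 hz2
        have hfin : oo (oo x y) z = 0 := by
          apply r7
          rcases hor with h | h | h
          · exact Or.inl (g7 (Or.inl h))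
          · exact Or.inl (g7 (Or.inr h))
          · exact Or.inr h
        have e0 : oo (oo x y) z ≠ 1 := by rw [hfin]; decide
        rw [hx, hy] at g1 g2 g3 g4 g5
        rw [hx, hy, hz] at r1 r2 r3 r4 r5 r6 e0
        fin_cases k
        · exact g1
        · exact g2
        · exact g3
        · exact g4
        · exact g5
        · exact r1
        · exact r2
        · exact r3
        · exact r4
        · exact r5
        · exact e0
        · exact r6

end Pool.Agent.Y612.Eq
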