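import Pool.Agent.Y612.Eq.Stm2

/-!
# Three-colouring in every structure which pp-constructs the triangle
-/

set_option autoImplicit false

namespace Pool.Agent.Y612.Eq

open Finset
open scoped Classical

namespace KH

section

variable {ι : Type} {ar : ι → ℕ} {D : Type} {R : ∀ i, Set (Fin (ar i) → D)} {A U : Type}

/-- the equivalence relation generated by the equalities -/
def Eqv (Q : List ((A ⊕ U) × (A ⊕ U))) : A ⊕ U → A ⊕ U → Prop :=
  Relation.EqvGen (fun x y => (x, y) ∈ Q)

theorem eqv_resp {Q : List ((A ⊕ U) × (A ⊕ U))} {h : A ⊕ U → D} (hh : ∀ e ∈ Q, h e.1 = h e.2)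
    {x y : A ⊕ U} (hxy : Eqv Q x y) : h x = h y := by
  induction hxy with
  | rel x y hr => exact hh (x, y) hr
  | refl x => rfl
  | symm x y _ ih => exact ih.symm
  | trans x y z _ _ ih1 ih2 => exact ih1.trans ih2

/-- values for the further variables such that all equalities hold -/
theorem exists_val (Q : List ((A ⊕ U) × (A ⊕ U))) (f : A → D) (dflt : D)
    (hf : ∀ w w', Eqv Q (Sum.inl w) (Sum.inl w') → f w = f w') :
    ∃ g : U → D, ∀ e ∈ Q, Sum.elim f g e.1 = Sum.elim f g e.2 := by
  let H : (A → Prop) → D := fun S => if h : ∃ w, S w then f h.choose else dflt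
  let k : A ⊕ U → D := fun x => H (fun w => Eqv Q (Sum.inl w) x)
  have hk : ∀ x y, Eqv Q x y → k x = k y := by
    intro x y hxy
    have e : (fun w : A => Eqv Q (Sum.inl w) x) = fun w => Eqv Q (Sum.inl w) y := by
      funext w
      exact propext ⟨fun h => Relation.EqvGen.trans _ _ _ h hxy,
        fun h => Relation.EqvGen.trans _ _ _ h (Relation.EqvGen.symm _ _ hxy)⟩
    show H _ = H _
    rw [e]
  have hkl : ∀ w, k (Sum.inl w) = f w := by
    intro w
    have h : ∃ w', Eqv Q (Sum.inl w') (Sum.inl w) := ⟨w, Relation.EqvGen.refl _⟩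
    show (if h : ∃ w', Eqv Q (Sum.inl w') (Sum.inl w) then f h.choose else dflt) = f w
    rw [dif_pos h]
    exact hf _ _ h.choose_spec
  refine ⟨fun u => k (Sum.inr u), ?_⟩
  have he : ∀ x, Sum.elim f (fun u => k (Sum.inr u)) x = k x := by
    intro x
    cases x with
    | inl w => exact (hkl w).symm
    | inr u => rfl
  intro e heQ
  rw [he, he]
  exact hk _ _ (Relation.EqvGen.rel _ _ heQ)

theorem three (u v : Fin 3) : ∃ c : Fin 2 → Fin 3, u ≠ c 0 ∧ c 1 ≠ c 0 ∧ c 1 ≠ v := by
  revert u v
  decide

end

section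

variable {G E : Type}

/-- the first vertex of a place -/
def fs (ends : E → G × G) (pl : E × Fin 4) : G ⊕ (E × Fin 2) :=
  (![Sum.inl (ends pl.1).1, Sum.inr (pl.1, 1), Sum.inr (pl.1, 1), Sum.inl (ends pl.1).1] :
    Fin 4 → G ⊕ (E × Fin 2)) pl.2

/-- the second vertex of a place -/
def sn (ends : E → G × G) (pl : E × Fin 4) : G ⊕ (E × Fin 2) :=
  (![Sum.inr (pl.1, 0), Sum.inr (pl.1, 0), Sum.inl (ends pl.1).2, Sum.inl (ends pl.1).2] :
    Fin 4 → G ⊕ (E × Fin 2)) pl.2

/-- the variables of a place -/
def rho {d : ℕ} {U : Type} (ends : E → G × G) (pl : E × Fin 4) :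
    (Fin d ⊕ Fin d) ⊕ U → ((G ⊕ (E × Fin 2)) × Fin d) ⊕ ((E × Fin 4) × U)
  | Sum.inl (Sum.inl i) => Sum.inl (fs ends pl, i)
  | Sum.inl (Sum.inr i) => Sum.inl (sn ends pl, i)
  | Sum.inr u => Sum.inr (pl, u)

/-- the identifications -/
def rl {d : ℕ} {U : Type} (ends : E → G × G)
    (Q : List (((Fin d ⊕ Fin d) ⊕ U) × ((Fin d ⊕ Fin d) ⊕ U)))
    (z z' : ((G ⊕ (E × Fin 2)) × Fin d) ⊕ ((E × Fin 4) × U)) : Prop :=
  ∃ pl : E × Fin 4, ∃ q ∈ Q, z = rho ends pl q.1 ∧ z' = rho ends pl q.2

/-- the condition of a place -/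
def sg {I : Type} (σ : E → Option I) (pl : E × Fin 4) : Option I :=
  if pl.2 = 3 then σ pl.1 else none

end

end KH

open KH in
theorem EQ_K3Host : S_K3Host := by
  intro ι ar D R hR
  obtain ⟨d, P, ⟨U, _, J, Q, hP⟩, ⟨a, ha⟩, c, hc⟩ := hR
  refine ⟨2 * d + 4 * Fintype.card U + 4 * J.length, ?_⟩
  intro G E I _ _ ends σ
  -- a default value
  have hne : a 0 ≠ a 1 := by
    intro h
    exact hc _ _ (ha 0 1 (by decide)) (congrArg c h)
  obtain ⟨i0, _⟩ := Function.ne_iff.1 hne
  let dflt : D := a 0 i0
  let Z : Type := ((G ⊕ (E × Fin 2)) × Fin d) ⊕ ((E × Fin 4) × U)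
  let r : Z → Z → Prop := rl ends Q
  have hfin : Finite (Quot r) := Finite.of_surjective (Quot.mk r) Quot.mk_surjective
  have hcard : @Fintype.card (Quot r) (Fintype.ofFinite _) ≤ Fintype.card Z := by
    rw [Fintype.card_eq_nat_card, ← Nat.card_eq_fintype_card]
    exact Nat.card_le_card_of_surjective (Quot.mk r) Quot.mk_surjective
  refine ⟨Quot r, (E × Fin 4) × Fin J.length, Fintype.ofFinite _, inferInstance,
    fun j => ⟨(J.get j.2).1, fun p => Quot.mk r (rho ends j.1 ((J.get j.2).2 p))⟩,
    fun j => sg σ j.1, ?_, ?_⟩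
  · have h1 : Fintype.card Z = (Fintype.card G + Fintype.card E * 2) * d +
        Fintype.card E * 4 * Fintype.card U := by
      simp only [Z, Fintype.card_sum, Fintype.card_prod, Fintype.card_fin]
    have h2 : Fintype.card ((E × Fin 4) × Fin J.length) = Fintype.card E * 4 * J.length := by
      simp only [Fintype.card_prod, Fintype.card_fin]
    rw [h2]
    refine (Nat.add_le_add_right hcard _).trans ?_
    rw [h1]
    generalize Fintype.card G = g
    generalize Fintype.card E = e
    generalize Fintype.card U = u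
    generalize J.length = l
    have e1 : (2 * d + 4 * u + 4 * l) * (g + e + 1) = (g + e * 2) * d + e * 4 * u + e * 4 * l +
        (d * g + 2 * d + 4 * u * g + 4 * u + 4 * l * g + 4 * l) := by ring
    rw [e1]
    exact Nat.le_add_right _ _
  · intro X
    constructor
    · rintro ⟨z, hz⟩
      refine ⟨fun g => c (fun i => z (Quot.mk r (Sum.inl (Sum.inl g, i)))), fun e he => ?_⟩
      apply hc
      rw [hP]
      refine ⟨fun u => z (Quot.mk r (Sum.inr ((e, 3), u))), ?_, ?_⟩
      · intro cn hcn
        obtain ⟨n, hn⟩ := List.get_of_mem hcn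
        have hmem := hz ((e, 3), n) (by
          rw [mem_filter]
          refine ⟨mem_univ _, fun i hi => ?_⟩
          have h3 : sg σ (e, 3) = σ e := if_pos rfl
          have hi' : sg σ (e, 3) = some i := hi
          rw [h3] at hi'
          exact he i hi')
        rw [← hn]
        show (fun p => Sum.elim _ _ ((J.get n).2 p)) ∈ R (J.get n).1
        have e1 : (fun p => Sum.elim (Sum.elim
            (fun i => z (Quot.mk r (Sum.inl (Sum.inl (ends e).1, i))))
            (fun i => z (Quot.mk r (Sum.inl (Sum.inl (ends e).2, i)))))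
            (fun u => z (Quot.mk r (Sum.inr ((e, 3), u)))) ((J.get n).2 p)) =
            fun p => z (Quot.mk r (rho ends (e, 3) ((J.get n).2 p))) := by
          funext p
          rcases (J.get n).2 p with (i | i) | u <;> rfl
        rw [e1]
        exact hmem
      · intro q hq
        have e1 : ∀ x, Sum.elim (Sum.elim
            (fun i => z (Quot.mk r (Sum.inl (Sum.inl (ends e).1, i))))
            (fun i => z (Quot.mk r (Sum.inl (Sum.inl (ends e).2, i)))))
            (fun u => z (Quot.mk r (Sum.inr ((e, 3), u)))) x =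
            z (Quot.mk r (rho ends (e, 3) x)) := by
          intro x
          rcases x with (i | i) | u <;> rfl
        rw [e1, e1]
        exact congrArg z (Quot.sound ⟨(e, 3), q, hq, rfl, rfl⟩)
    · rintro ⟨κ, hκ⟩
      choose cc hcc1 hcc2 hcc3 using fun e : E => three (κ (ends e).1) (κ (ends e).2)
      let κ' : G ⊕ (E × Fin 2) → Fin 3 := Sum.elim κ (fun en => cc en.1 en.2)
      let x : G ⊕ (E × Fin 2) → Fin d → D := fun w => a (κ' w)
      have hPne : ∀ w w', κ' w ≠ κ' w' → Sum.elim (x w) (x w') ∈ P := fun w w' h => ha _ _ h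
      have hPe : ∀ f : Fin d ⊕ Fin d → D, f ∈ P → ∀ w w', Eqv Q (Sum.inl w) (Sum.inl w') →
          f w = f w' := by
        intro f hf w w' hww
        obtain ⟨g, _, hg⟩ := (hP f).1 hf
        exact eqv_resp (h := Sum.elim f g) hg hww
      -- the values of the further variables
      have key : ∀ pl : E × Fin 4, ∃ g : U → D,
          (∀ q ∈ Q, Sum.elim (Sum.elim (x (fs ends pl)) (x (sn ends pl))) g q.1 =
            Sum.elim (Sum.elim (x (fs ends pl)) (x (sn ends pl))) g q.2) ∧
          ((∀ i, sg σ pl = some i → i ∈ X) → ∀ cn ∈ J,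
            Holds R (Sum.elim (Sum.elim (x (fs ends pl)) (x (sn ends pl))) g) cn) := by
        intro pl
        by_cases hpl : κ' (fs ends pl) ≠ κ' (sn ends pl)
        · obtain ⟨g, hg1, hg2⟩ := (hP _).1 (hPne _ _ hpl)
          exact ⟨g, hg2, fun _ => hg1⟩
        · push Not at hpl
          obtain ⟨e, n⟩ := pl
          have h0 : κ (ends e).1 ≠ cc e 0 := hcc1 e
          have h1 : cc e 1 ≠ cc e 0 := hcc2 e
          have h2 : cc e 1 ≠ κ (ends e).2 := hcc3 e
          have hn : n = 3 := by
            fin_cases n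
            · exact absurd hpl h0
            · exact absurd hpl h1
            · exact absurd hpl h2
            · rfl
          subst hn
          have hpl' : κ (ends e).1 = κ (ends e).2 := hpl
          have P0 := hPe _ (hPne (Sum.inl (ends e).1) (Sum.inr (e, 0)) h0)
          have P1 := hPe _ (hPne (Sum.inr (e, 1)) (Sum.inr (e, 0)) h1)
          have P2 := hPe _ (hPne (Sum.inr (e, 1)) (Sum.inl (ends e).2) h2)
          obtain ⟨g, hg⟩ := exists_val Q
            (Sum.elim (x (fs ends (e, 3))) (x (sn ends (e, 3)))) dflt (by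
              intro w w' hww
              rcases w with i | i <;> rcases w' with j | j
              · exact P0 _ _ hww
              · have q0 := P0 _ _ hww
                have q1 := P1 _ _ hww
                have q2 := P2 _ _ hww
                exact (q0.trans q1.symm).trans q2
              · have q0 := P0 _ _ hww
                have q1 := P1 _ _ hww
                have q2 := P2 _ _ hww
                exact (q2.trans q1.symm).trans q0
              · exact P2 _ _ hww)
          refine ⟨g, hg, fun hpr => ?_⟩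
          exact absurd hpl' (hκ e (fun i hi => hpr i (by
            have h3 : sg σ (e, 3) = σ e := if_pos rfl
            rw [h3]
            exact hi)))
      choose g hg1 hg2 using key
      let zz : Z → D := Sum.elim (fun wi => x wi.1 wi.2) (fun pu => g pu.1 pu.2)
      have hzz : ∀ (pl : E × Fin 4) (y : (Fin d ⊕ Fin d) ⊕ U), zz (rho ends pl y) =
          Sum.elim (Sum.elim (x (fs ends pl)) (x (sn ends pl))) (g pl) y := by
        intro pl y
        rcases y with (i | i) | u <;> rfl
      refine ⟨Quot.lift zz ?_, ?_⟩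
      · rintro y y' ⟨pl, q, hq, rfl, rfl⟩
        rw [hzz, hzz]
        exact hg1 pl q hq
      · rintro ⟨pl, n⟩ hj
        rw [mem_filter] at hj
        have h1 := hg2 pl hj.2 (J.get n) (List.get_mem J n)
        show (fun p => zz (rho ends pl ((J.get n).2 p))) ∈ R (J.get n).1
        have e1 : (fun p => zz (rho ends pl ((J.get n).2 p))) = fun p =>
            Sum.elim (Sum.elim (x (fs ends pl)) (x (sn ends pl))) (g pl) ((J.get n).2 p) := by
          funext p
          exact hzz pl _
        rw [e1]
        exact h1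

end Pool.Agent.Y612.Eq
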