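import Pool.Agent.Y612.Eq.Stm

/-!
# The relation `NE` is primitive positive definable if there is no constant polymorphism
-/

set_option autoImplicit false

namespace Pool.Agent.Y612.Eq

open Finset
open scoped Classical

theorem perm_two (hP : S_Perm) {a b c d : ℕ} (h1 : a ≠ b) (h2 : c ≠ d) :
    ∃ σ : Equiv.Perm ℕ, σ a = c ∧ σ b = d := by
  have e : ker (![a, b] : Fin 2 → ℕ) = ker (![c, d] : Fin 2 → ℕ) := by
    ext ⟨p, q⟩
    show (![a, b] : Fin 2 → ℕ) p = (![a, b] : Fin 2 → ℕ) q ↔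
      (![c, d] : Fin 2 → ℕ) p = (![c, d] : Fin 2 → ℕ) q
    fin_cases p <;> fin_cases q <;> simp [h1, h2, h1.symm, h2.symm]
  obtain ⟨σ, hσ⟩ := hP 2 _ _ e
  exact ⟨σ, hσ 0, hσ 1⟩

theorem EQ_NE (hP : S_Perm) : S_NE := by
  intro ι ar R hI hC
  -- a relation without constant tuples
  obtain ⟨i, t, ht, h0⟩ : ∃ i, ∃ t ∈ R i, (fun _ => 0 : Fin (ar i) → ℕ) ∉ R i := by
    by_contra hcon
    refine hC ⟨0, fun i t ht => ?_⟩
    by_contra h
    exact hcon ⟨i, t, ht, h⟩
  -- a tuple with maximal kernel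
  obtain ⟨K, hK⟩ := Set.Finite.exists_maximal (Set.toFinite (ker '' R i)) ⟨_, t, ht, rfl⟩
  obtain ⟨f, hf, rfl⟩ := hK.prop
  have hmax : ∀ h ∈ R i, ker f ⊆ ker h → ker h ⊆ ker f := fun h hh hsub =>
    hK.le_of_ge ⟨h, hh, rfl⟩ hsub
  obtain ⟨p0, q0, hpq⟩ : ∃ p0 q0, f p0 ≠ f q0 := by
    by_contra hcon
    push Not at hcon
    apply h0
    rcases isEmpty_or_nonempty (Fin (ar i)) with hE | ⟨⟨p⟩⟩
    · have e : (fun _ => 0 : Fin (ar i) → ℕ) = f := funext fun p => hE.elim p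
      rw [e]
      exact hf
    · have h1 := hI (Equiv.swap (f p) 0) i f hf
      have e : (fun q => Equiv.swap (f p) 0 (f q)) = fun _ => 0 := by
        funext q
        rw [hcon q p, Equiv.swap_apply_left]
      rw [e] at h1
      exact h1
  haveI : Nonempty (Fin (ar i)) := ⟨p0⟩
  set r : Fin (ar i) → Fin (ar i) := fun p => Function.invFun f (f p) with hr
  have hr1 : ∀ p, f (r p) = f p := fun p => Function.invFun_eq ⟨p, rfl⟩
  have hr2 : ∀ p q, f p = f q → r p = r q := fun p q h => congrArg (Function.invFun f) h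
  set ρ : Fin (ar i) → Fin 2 ⊕ Fin (ar i) := fun p =>
    if f p = f p0 then Sum.inl 0 else if f p = f q0 then Sum.inl 1 else Sum.inr (r p) with hρ
  have hρ1 : ∀ p q, f p = f q → ρ p = ρ q := by
    intro p q h
    simp only [hρ]
    rw [h, hr2 p q h]
  have key := pp_exists (pp_subst (pp_atom (R := R) (W := Fin (ar i)) ⟨i, id⟩) ρ)
  refine pp_congr key fun e => ?_
  show e 0 ≠ e 1 ↔ ∃ g : Fin (ar i) → ℕ, (fun p => Sum.elim e g (ρ p)) ∈ R i
  constructor
  · intro he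
    obtain ⟨σ, h1, h2⟩ := perm_two hP hpq he
    refine ⟨fun p => σ (f p), ?_⟩
    have e1 : (fun p => Sum.elim e (fun p => σ (f p)) (ρ p)) = fun p => σ (f p) := by
      funext p
      simp only [hρ]
      by_cases c1 : f p = f p0
      · rw [if_pos c1, Sum.elim_inl, c1, h1]
      · rw [if_neg c1]
        by_cases c2 : f p = f q0
        · rw [if_pos c2, Sum.elim_inl, c2, h2]
        · rw [if_neg c2, Sum.elim_inr, hr1]
    rw [e1]
    exact hI σ i f hf
  · rintro ⟨g, hg⟩ he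
    have h1 := hmax _ hg (by
      rintro ⟨p, q⟩ hpq'
      have h2 : f p = f q := hpq'
      show Sum.elim e g (ρ p) = Sum.elim e g (ρ q)
      rw [hρ1 p q h2])
    have h3 : (p0, q0) ∈ ker (fun p => Sum.elim e g (ρ p)) := by
      show Sum.elim e g (ρ p0) = Sum.elim e g (ρ q0)
      have e1 : ρ p0 = Sum.inl 0 := by simp [hρ]
      have e2 : ρ q0 = Sum.inl 1 := by simp [hρ, hpq.symm]
      rw [e1, e2, Sum.elim_inl, Sum.elim_inl]
      exact he
    exact hpq (h1 h3)

end Pool.Agent.Y612.Eq
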