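import Pool.Agent.Y612.Eq.Stm2

/-!
# The triangle is pp-constructed from the two relations

Job 11387 (helper665).
-/

set_option autoImplicit false

namespace Pool.Agent.Y612.Eq

namespace PPK3

variable {ι : Type} {ar : ι → ℕ} {R : ∀ i, Set (Fin (ar i) → ℕ)}

/-- `f y` is one of the three values, if these are different -/
def InS {W : Type} (y a b c : W) : Set (W → ℕ) :=
  {f | ∃ g : Fin 1 → ℕ, Sum.elim f g ∈
    ({h : W ⊕ Fin 1 → ℕ | h (Sum.inl a) ≠ h (Sum.inl b) ∧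
      (h (Sum.inr 0) = h (Sum.inl a) ∨ h (Sum.inr 0) = h (Sum.inl b))} ∩
    {h : W ⊕ Fin 1 → ℕ | h (Sum.inr 0) ≠ h (Sum.inl c) ∧
      (h (Sum.inl y) = h (Sum.inr 0) ∨ h (Sum.inl y) = h (Sum.inl c))} : Set (W ⊕ Fin 1 → ℕ))}

theorem pp_inS {W : Type} (h3 : PP R S3) (y a b c : W) : PP R (InS y a b c) :=
  pp_exists (pp_inter (pp_three h3 (Sum.inl a) (Sum.inr 0) (Sum.inl b))
    (pp_three h3 (Sum.inr 0) (Sum.inl y) (Sum.inl c)))

theorem mem_inS {W : Type} (y a b c : W) (f : W → ℕ) (hab : f a ≠ f b) (hac : f a ≠ f c)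
    (hbc : f b ≠ f c) : f ∈ InS y a b c ↔ (f y = f a ∨ f y = f b ∨ f y = f c) := by
  constructor
  · rintro ⟨g, ⟨_, h1⟩, ⟨_, h2⟩⟩
    simp only [Sum.elim_inl, Sum.elim_inr] at h1 h2
    rcases h2 with h2 | h2
    · rcases h1 with h1 | h1
      · exact Or.inl (h2.trans h1)
      · exact Or.inr (Or.inl (h2.trans h1))
    · exact Or.inr (Or.inr h2)
  · rintro (h | h | h)
    · exact ⟨fun _ => f a, ⟨hab, Or.inl rfl⟩, ⟨hac, Or.inl h⟩⟩
    · exact ⟨fun _ => f b, ⟨hab, Or.inr rfl⟩, ⟨hbc, Or.inl h⟩⟩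
    · exact ⟨fun _ => f a, ⟨hab, Or.inl rfl⟩, ⟨hac, Or.inr h⟩⟩

/-- the part without equalities -/
def MM : Set (Fin 4 ⊕ Fin 4 → ℕ) :=
  {f | f (Sum.inl 0) ≠ f (Sum.inl 1)} ∩ ({f | f (Sum.inl 0) ≠ f (Sum.inl 2)} ∩
    ({f | f (Sum.inl 1) ≠ f (Sum.inl 2)} ∩ ({f | f (Sum.inl 3) ≠ f (Sum.inr 3)} ∩
      (InS (Sum.inl 3) (Sum.inl 0) (Sum.inl 1) (Sum.inl 2) ∩
        InS (Sum.inr 3) (Sum.inl 0) (Sum.inl 1) (Sum.inl 2)))))

theorem pp_MM (h1 : PP R NE) (h3 : PP R S3) : PP R MM :=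
  pp_inter (pp_ne h1 _ _) (pp_inter (pp_ne h1 _ _) (pp_inter (pp_ne h1 _ _)
    (pp_inter (pp_ne h1 _ _) (pp_inter (pp_inS h3 _ _ _ _) (pp_inS h3 _ _ _ _)))))

/-- the binary relation on the tuples -/
def PPP : Set (Fin 4 ⊕ Fin 4 → ℕ) :=
  {f | (f (Sum.inl 0) = f (Sum.inr 0) ∧ f (Sum.inl 1) = f (Sum.inr 1) ∧
    f (Sum.inl 2) = f (Sum.inr 2)) ∧ f ∈ MM}

theorem mem_PPP (f : Fin 4 ⊕ Fin 4 → ℕ) : f ∈ PPP ↔
    (f (Sum.inl 0) = f (Sum.inr 0) ∧ f (Sum.inl 1) = f (Sum.inr 1) ∧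
      f (Sum.inl 2) = f (Sum.inr 2)) ∧ f (Sum.inl 0) ≠ f (Sum.inl 1) ∧
      f (Sum.inl 0) ≠ f (Sum.inl 2) ∧ f (Sum.inl 1) ≠ f (Sum.inl 2) ∧
      f (Sum.inl 3) ≠ f (Sum.inr 3) ∧
      (f (Sum.inl 3) = f (Sum.inl 0) ∨ f (Sum.inl 3) = f (Sum.inl 1) ∨
        f (Sum.inl 3) = f (Sum.inl 2)) ∧
      (f (Sum.inr 3) = f (Sum.inl 0) ∨ f (Sum.inr 3) = f (Sum.inl 1) ∨
        f (Sum.inr 3) = f (Sum.inl 2)) := by
  constructor
  · rintro ⟨h0, h1, h2, h3, h4, h5, h6⟩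
    exact ⟨h0, h1, h2, h3, h4, (mem_inS _ _ _ _ f h1 h2 h3).1 h5, (mem_inS _ _ _ _ f h1 h2 h3).1 h6⟩
  · rintro ⟨h0, h1, h2, h3, h4, h5, h6⟩
    exact ⟨h0, h1, h2, h3, h4, (mem_inS _ _ _ _ f h1 h2 h3).2 h5, (mem_inS _ _ _ _ f h1 h2 h3).2 h6⟩

theorem ppdef_PPP (h1 : PP R NE) (h3 : PP R S3) : PPDef R PPP := by
  obtain ⟨U, fU, J, hJ⟩ := pp_MM h1 h3
  refine ⟨U, fU, J, [(Sum.inl (Sum.inl 0), Sum.inl (Sum.inr 0)),
    (Sum.inl (Sum.inl 1), Sum.inl (Sum.inr 1)), (Sum.inl (Sum.inl 2), Sum.inl (Sum.inr 2))],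
    fun f => ?_⟩
  constructor
  · rintro ⟨h0, h2⟩
    obtain ⟨g, hg⟩ := (hJ f).1 h2
    refine ⟨g, hg, ?_⟩
    simp only [List.mem_cons, List.not_mem_nil, or_false, forall_eq_or_imp, forall_eq,
      Sum.elim_inl]
    exact h0
  · rintro ⟨g, hg, he⟩
    simp only [List.mem_cons, List.not_mem_nil, or_false, forall_eq_or_imp, forall_eq,
      Sum.elim_inl] at he
    exact ⟨he, (hJ f).2 ⟨g, hg⟩⟩

/-- the colour of a tuple -/
def col (x : Fin 4 → ℕ) : Fin 3 := if x 3 = x 0 then 0 else if x 3 = x 1 then 1 else 2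

end PPK3

open PPK3 in
theorem EQ_PPK3 : S_PPK3 := by
  intro ι ar R h1 h3
  refine ⟨4, PPP, ppdef_PPP h1 h3, ⟨fun i => ![0, 1, 2, i.val], ?_⟩, col, ?_⟩
  · intro i j hij
    rw [mem_PPP]
    simp only [Sum.elim_inl, Sum.elim_inr]
    fin_cases i <;> fin_cases j <;> simp at hij ⊢
  · intro x y h
    rw [mem_PPP] at h
    simp only [Sum.elim_inl, Sum.elim_inr] at h
    obtain ⟨⟨e0, e1, e2⟩, n01, n02, n12, n3, hx, hy⟩ := h
    unfold col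
    rw [← e0, ← e1]
    rcases hx with hx | hx | hx
    · rw [if_pos hx]
      rcases hy with hy | hy | hy
      · exact absurd (hx.trans hy.symm) n3
      · rw [if_neg (by rw [hy]; exact n01.symm), if_pos hy]
        decide
      · rw [if_neg (by rw [hy]; exact n02.symm), if_neg (by rw [hy]; exact n12.symm)]
        decide
    · rw [if_neg (by rw [hx]; exact n01.symm), if_pos hx]
      rcases hy with hy | hy | hy
      · rw [if_pos hy]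
        decide
      · exact absurd (hx.trans hy.symm) n3
      · rw [if_neg (by rw [hy]; exact n02.symm), if_neg (by rw [hy]; exact n12.symm)]
        decide
    · rw [if_neg (by rw [hx]; exact n02.symm), if_neg (by rw [hx]; exact n12.symm)]
      rcases hy with hy | hy | hy
      · rw [if_pos hy]
        decide
      · rw [if_neg (by rw [hy]; exact n01.symm), if_pos hy]
        decide
      · exact absurd (hx.trans hy.symm) n3

end Pool.Agent.Y612.Eq
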