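import Pool.Agent.Y612.Eq.Stm

/-!
# Tuples with the same kernel differ by a permutation (helper431)
-/

set_option autoImplicit false

namespace Pool.Agent.Y612.Eq

/-- induction on the number of coordinates -/
theorem perm_aux : ∀ (k : ℕ) (f g : Fin k → ℕ), (∀ p q, f p = f q ↔ g p = g q) →
    ∃ σ : Equiv.Perm ℕ, ∀ p, σ (f p) = g p := by
  intro k
  induction k with
  | zero => exact fun f g _ => ⟨1, fun p => p.elim0⟩
  | succ k ih =>
    intro f g h
    obtain ⟨σ, hσ⟩ := ih (fun p => f p.castSucc) (fun p => g p.castSucc) (fun p q => h _ _)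
    by_cases hx : ∃ p : Fin k, f p.castSucc = f (Fin.last k)
    · obtain ⟨p, hp⟩ := hx
      refine ⟨σ, fun q => ?_⟩
      refine Fin.lastCases ?_ (fun i => hσ i) q
      rw [← hp, hσ p]
      exact (h _ _).1 hp
    · have hf : ∀ p : Fin k, f p.castSucc ≠ f (Fin.last k) := fun p hp => hx ⟨p, hp⟩
      have hg : ∀ p : Fin k, g p.castSucc ≠ g (Fin.last k) := fun p hp => hf p ((h _ _).2 hp)
      refine ⟨Equiv.swap (σ (f (Fin.last k))) (g (Fin.last k)) * σ, fun q => ?_⟩
      refine Fin.lastCases ?_ (fun i => ?_) q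
      · rw [Equiv.Perm.mul_apply, Equiv.swap_apply_left]
      · rw [Equiv.Perm.mul_apply, hσ i]
        refine Equiv.swap_apply_of_ne_of_ne (fun he => ?_) (hg i)
        rw [← hσ i] at he
        exact hf i (σ.injective he)

theorem EQ_Perm : S_Perm := by
  intro k f g h
  refine perm_aux k f g fun p q => ?_
  have h1 : (p, q) ∈ ker f ↔ (p, q) ∈ ker g := by rw [h]
  exact h1

end Pool.Agent.Y612.Eq
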