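import Pool.Agent.Y612.Eq.Stm

/-!
# Propagation is complete if there is an injective binary polymorphism (helper435)
-/

set_option autoImplicit false

namespace Pool.Agent.Y612.Eq

open Finset
open scoped Classical

namespace Stage

section

variable {ι : Type} {ar : ι → ℕ} {R : ∀ i, Set (Fin (ar i) → ℕ)} {V I : Type} {con : I → Con ar V}
  {X : Finset I}

theorem sound {z : V → ℕ} (hz : ∀ i ∈ X, Holds R z (con i)) :
    ∀ (n : ℕ) (u v : V), stage R con X n u v → z u = z v := by
  intro n
  induction n with
  | zero =>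
    intro u v h
    have h' : u = v := h
    rw [h']
  | succ n ih =>
    intro u v h
    rcases h with h | ⟨w, h1, h2⟩ | ⟨i, hi, p, q, rfl, rfl, h⟩
    · exact ih u v h
    · exact (ih u w h1).trans (ih w v h2)
    · exact h (fun p => z ((con i).2 p)) (hz i hi) fun p' q' h' => ih _ _ h'

theorem refl (n : ℕ) (u : V) : stage R con X n u u := by
  induction n with
  | zero => exact rfl
  | succ n ih => exact Or.inl ih

theorem symm (n : ℕ) : ∀ u v : V, stage R con X n u v → stage R con X n v u := by
  induction n with
  | zero =>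
    intro u v h
    have h' : u = v := h
    exact h'.symm
  | succ n ih =>
    intro u v h
    rcases h with h | ⟨w, h1, h2⟩ | ⟨i, hi, p, q, hp, hq, h⟩
    · exact Or.inl (ih u v h)
    · exact Or.inr (Or.inl ⟨w, ih _ _ h2, ih _ _ h1⟩)
    · exact Or.inr (Or.inr ⟨i, hi, q, p, hq, hp, fun f hf hE => (h f hf hE).symm⟩)

theorem mono {m n : ℕ} (h : m ≤ n) (u v : V) (huv : stage R con X m u v) :
    stage R con X n u v := by
  induction n, h using Nat.le_induction with
  | base => exact huv
  | succ n _ ih => exact Or.inl ih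

theorem stable [Fintype V] {n : ℕ} (hn : Fintype.card V ^ 2 < n) (u v : V)
    (h : stage R con X (n + 1) u v) : stage R con X n u v := by
  set S : ℕ → Finset (V × V) := fun m => univ.filter fun w => stage R con X m w.1 w.2 with hS
  have hmem : ∀ m (w : V × V), w ∈ S m ↔ stage R con X m w.1 w.2 := by
    intro m w
    simp [hS]
  have hex : ∃ m, m ≤ Fintype.card V ^ 2 ∧ ∀ u v, stage R con X (m + 1) u v → stage R con X m u v := by
    by_contra hcon
    push Not at hcon
    have hc : ∀ m, m ≤ Fintype.card V ^ 2 + 1 → m ≤ (S m).card := by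
      intro m
      induction m with
      | zero => intro _; exact Nat.zero_le _
      | succ m ih =>
        intro hm
        have h1 := ih (by omega)
        obtain ⟨u, v, h2, h3⟩ := hcon m (by omega)
        have h4 : S m ⊂ S (m + 1) := by
          rw [Finset.ssubset_iff_of_subset]
          · exact ⟨(u, v), (hmem _ _).2 h2, fun h => h3 ((hmem _ _).1 h)⟩
          · intro w hw
            exact (hmem _ _).2 (mono (Nat.le_succ m) _ _ ((hmem _ _).1 hw))
        have := Finset.card_lt_card h4
        omega
    have h1 := hc _ le_rfl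
    have h2 : (S (Fintype.card V ^ 2 + 1)).card ≤ Fintype.card V ^ 2 := by
      refine (Finset.card_le_univ _).trans ?_
      rw [Fintype.card_prod, sq]
    omega
  obtain ⟨m, hm, hst⟩ := hex
  have heq : stage R con X (m + 1) = stage R con X m := by
    funext u v
    exact propext ⟨hst u v, mono (Nat.le_succ m) u v⟩
  have hall : ∀ k, stage R con X (m + k) = stage R con X m := by
    intro k
    induction k with
    | zero => rfl
    | succ k ih =>
      have e : stage R con X (m + (k + 1)) = step R con X (stage R con X (m + k)) := rfl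
      rw [e, ih]
      exact heq
  have e1 := hall (n + 1 - m)
  have e2 := hall (n - m)
  rw [show m + (n + 1 - m) = n + 1 by omega] at e1
  rw [show m + (n - m) = n by omega] at e2
  rw [e2, ← e1]
  exact h

theorem combine (hI : HasInj R) {i : ι} (K : Fin (ar i) → Fin (ar i) → Prop)
    (hne : ∃ f ∈ R i, ∀ p q, K p q → f p = f q)
    (hsep : ∀ p q, ¬ K p q → ∃ f ∈ R i, (∀ p q, K p q → f p = f q) ∧ f p ≠ f q) :
    ∃ h ∈ R i, ∀ p q, h p = h q ↔ K p q := by
  obtain ⟨g, hg, hpol⟩ := hI
  have key : ∀ W : Finset (Fin (ar i) × Fin (ar i)), (∀ w ∈ W, ¬ K w.1 w.2) →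
      ∃ h ∈ R i, (∀ p q, K p q → h p = h q) ∧ ∀ w ∈ W, h w.1 ≠ h w.2 := by
    intro W
    induction W using Finset.induction_on with
    | empty =>
      intro _
      obtain ⟨f, hf, hf'⟩ := hne
      exact ⟨f, hf, hf', fun w hw => absurd hw (Finset.notMem_empty _)⟩
    | insert a W _ ih =>
      intro hW
      obtain ⟨h, hh, h1, h2⟩ := ih fun w hw => hW w (mem_insert_of_mem hw)
      obtain ⟨f, hf, f1, f2⟩ := hsep a.1 a.2 (hW a (mem_insert_self _ _))
      refine ⟨fun p => g (h p) (f p), hpol i h hh f hf, ?_, ?_⟩
      · intro p q hK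
        show g (h p) (f p) = g (h q) (f q)
        rw [h1 p q hK, f1 p q hK]
      · intro w hw he
        obtain ⟨e1, e2⟩ := hg _ _ _ _ he
        rcases mem_insert.1 hw with rfl | hw
        · exact f2 e2
        · exact h2 w hw e1
  obtain ⟨h, hh, h1, h2⟩ := key (univ.filter fun w => ¬ K w.1 w.2)
    (fun w hw => (mem_filter.1 hw).2)
  refine ⟨h, hh, fun p q => ⟨fun he => ?_, h1 p q⟩⟩
  by_contra hK
  exact h2 (p, q) (mem_filter.2 ⟨mem_univ _, hK⟩) he

end

end Stage

open Stage in
theorem EQ_Stage (hP : S_Perm) : S_Stage := by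
  intro ι ar R hInv hInj V I _ con X n hn
  constructor
  · rintro ⟨z, hz⟩ i hi
    exact ⟨fun p => z ((con i).2 p), hz i hi, fun p q h => sound hz n _ _ h⟩
  · intro hal
    have hclosed : ∀ u v, step R con X (stage R con X n) u v → stage R con X n u v :=
      fun u v h => stable hn u v h
    have htrans : ∀ u v w, stage R con X n u v → stage R con X n v w → stage R con X n u w :=
      fun u v w h1 h2 => hclosed u w (Or.inr (Or.inl ⟨v, h1, h2⟩))
    let s : Setoid V := ⟨stage R con X n, ⟨Stage.refl n, fun {u v} h => Stage.symm n u v h,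
      fun {u v w} h1 h2 => htrans u v w h1 h2⟩⟩
    obtain ⟨e, he⟩ := exists_injective_nat (Quotient s)
    have hz : ∀ u v : V, e (Quotient.mk s u) = e (Quotient.mk s v) ↔ stage R con X n u v := by
      intro u v
      rw [he.eq_iff, Quotient.eq]
      rfl
    refine ⟨fun v => e (Quotient.mk s v), ?_⟩
    intro i hi
    obtain ⟨h, hh, hk⟩ := combine hInj (i := (con i).1)
      (fun p q => stage R con X n ((con i).2 p) ((con i).2 q)) (hal i hi) (by
        intro p q hpq
        by_contra hcon
        push Not at hcon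
        apply hpq
        apply hclosed
        refine Or.inr (Or.inr ⟨i, hi, p, q, rfl, rfl, ?_⟩)
        intro f hf hE
        exact hcon f hf hE)
    obtain ⟨σ, hσ⟩ := hP (ar (con i).1) h (fun p => e (Quotient.mk s ((con i).2 p))) (by
      ext ⟨p, q⟩
      simp only [ker, Set.mem_ofPred_eq]
      rw [hk p q, hz])
    have h1 := hInv σ _ h hh
    have h2 : (fun p => σ (h p)) = fun p => e (Quotient.mk s ((con i).2 p)) := funext hσ
    rw [h2] at h1
    exact h1

end Pool.Agent.Y612.Eq
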