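import Pool.Agent.Y612.Eq.Stm

/-!
# The three-place relation is definable
-/

set_option autoImplicit false

namespace Pool.Agent.Y612.Eq

open Finset
open scoped Classical

theorem EQ_Three (hP : S_Perm) (hN : S_NE) (hCo : S_Comb) (hCa : S_Cases) (hF : S_FourThree) :
    S_Three := by
  intro ι ar R hR hc hi
  have hne := hN ι ar R hR hc
  refine ⟨hne, ?_⟩
  have h1 : ∃ i, ∃ s ∈ R i, ∃ t ∈ R i, (fun p => Nat.pair (s p) (t p)) ∉ R i := by
    by_contra hcon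
    push Not at hcon
    exact hi ⟨Nat.pair, fun a b a' b' h => by
      have := Nat.pair_eq_pair.1 h
      exact this, fun i s hs t ht => hcon i s hs t ht⟩
  obtain ⟨i, s, hs, t, ht, hst⟩ := h1
  have h2 : ker s ∩ ker t ∉ {κ | ∃ f ∈ R i, ker f = κ} := by
    rintro ⟨f, hf, hk⟩
    have hk' : ker f = ker (fun p => Nat.pair (s p) (t p)) := by
      rw [hk]
      ext ⟨p, q⟩
      simp only [ker, Set.mem_inter_iff]
      exact ⟨fun h => Nat.pair_eq_pair.2 h, fun h => Nat.pair_eq_pair.1 h⟩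
    obtain ⟨σ, hσ⟩ := hP _ _ _ hk'
    have h3 := hR σ i f hf
    rw [funext hσ] at h3
    exact hst h3
  obtain ⟨α, ⟨s', hs', rfl⟩, β, ⟨t', ht', rfl⟩, hab, hba, hall⟩ :=
    hCo (Fin (ar i) × Fin (ar i)) {κ | ∃ f ∈ R i, ker f = κ} (ker s) (ker t) ⟨s, hs, rfl⟩
      ⟨t, ht, rfl⟩ h2
  rcases hCa ι ar R hR hne i s' hs' t' ht' hab hba
    (fun f hf h3 h4 => hall (ker f) ⟨f, hf, rfl⟩ h3 h4) with h | ⟨T, hT, hT4⟩
  · exact h
  · exact hF ι ar R hne T hT hT4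

end Pool.Agent.Y612.Eq
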