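import Pool.Agent.Y612.Eq.Low
import Pool.Agent.Y612.Eq.Three
import Pool.Agent.Y612.Eq.Perm
import Pool.Agent.Y612.Eq.Neq
import Pool.Agent.Y612.Eq.Cases
import Pool.Agent.Y612.Eq.FourThree
import Pool.Agent.Y612.Eq.PPK3
import Pool.Agent.Y612.Eq.K3Host
import Pool.Agent.Y612.Eq.Graph
import Pool.Agent.Y612.Eq.Stage
import Pool.Agent.Y612.Eq.Circ
import Pool.Agent.Y612.Eq.ConstC
import Pool.Agent.Y612.Eq.Excl

/-!
# Assembly
-/

set_option autoImplicit false

namespace Pool.Agent.Y612.Eq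

open Finset
open scoped Classical

variable {ι : Type} {ar : ι → ℕ}

theorem hosts_of {D : Type} {R : ∀ i, Set (Fin (ar i) → D)} (h : ConstructsK3 R) : Hosts R := by
  obtain ⟨C1, h1⟩ := EQ_Graph
  obtain ⟨C2, h2⟩ := EQ_K3Host ι ar D R h
  refine ⟨C2 * (C1 + 1), fun V I _ _ cl hcl => ?_⟩
  obtain ⟨G, E, fG, fE, ends, σ, hc, hs⟩ := h1 V I cl hcl
  obtain ⟨V', I', fV, fI, con, σ', hc', hs'⟩ := h2 G E I ends σ
  refine ⟨V', I', fV, fI, con, σ', ?_, ?_⟩
  · refine hc'.trans ?_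
    rw [mul_assoc]
    refine Nat.mul_le_mul_left _ ?_
    have : (C1 + 1) * (Fintype.card V + Fintype.card I + 1) =
        C1 * (Fintype.card V + Fintype.card I + 1) + (Fintype.card V + Fintype.card I + 1) := by ring
    omega
  · intro X Y hY
    rw [← hs X, ← hs' X]
    refine iff_of_eq (congrArg (Solvable R con) (Finset.ext fun j => (hY j).trans ?_))
    simp only [mem_filter, mem_univ, true_and]

theorem hard_of {D : Type} {R : ∀ i, Set (Fin (ar i) → D)} (h : ConstructsK3 R) : Hard R :=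
  lower_of (hosts_of h)

theorem pol_of (hCo : S_Comb) {R : ∀ i, Set (Fin (ar i) → ℕ)} (hR : Inv R) (h : ¬ ConstructsK3 R) :
    HasConst R ∨ HasInj R := by
  by_contra hcon
  rw [not_or] at hcon
  obtain ⟨h1, h2⟩ := EQ_Three EQ_Perm (EQ_NE EQ_Perm) hCo (EQ_Cases EQ_Perm) EQ_FourThree ι ar R hR
    hcon.1 hcon.2
  exact h (EQ_PPK3 ι ar R h1 h2)

theorem easy_const {R : ∀ i, Set (Fin (ar i) → ℕ)} (h : HasConst R) : Easy R := by
  refine ⟨1, fun V I _ _ con => ?_⟩
  obtain ⟨L, hL, hlen, hA⟩ := EQ_ConstCirc ι ar R h V I con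
  exact ⟨L, hL, by
    rw [one_mul, pow_one]
    omega, hA⟩

theorem easy_inj [Finite ι] {R : ∀ i, Set (Fin (ar i) → ℕ)} (hR : Inv R) (h : HasInj R) :
    Easy R := by
  obtain ⟨C, hC⟩ := EQ_Circ ι ar R
  refine ⟨2 * C + 6, fun V I _ _ con => ?_⟩
  obtain ⟨L, hL, hlen, hA⟩ := hC V I con (Fintype.card V ^ 2 + 1)
  refine ⟨L, hL, hlen.trans ?_, ?_⟩
  · set m : ℕ := Fintype.card V + Fintype.card I + 1 with hm
    have h1 : Fintype.card V ^ 2 + 1 + 1 ≤ 2 * m ^ 2 := by
      have : Fintype.card V + 1 ≤ m := by omega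
      have h2 : (Fintype.card V + 1) ^ 2 ≤ m ^ 2 := Nat.pow_le_pow_left this 2
      nlinarith
    have hm1 : 1 ≤ m := by omega
    calc C * (Fintype.card V ^ 2 + 1 + 1) * m ^ 4 ≤ C * (2 * m ^ 2) * m ^ 4 :=
          Nat.mul_le_mul_right _ (Nat.mul_le_mul_left _ h1)
      _ = 2 * C * m ^ 6 := by ring
      _ ≤ (2 * C + 6) * m ^ (2 * C + 6) :=
          Nat.mul_le_mul (by omega) (Nat.pow_le_pow_right hm1 (by omega))
  · have e : (fun x : I → Bool => decide (¬ Solvable R con (univ.filter fun i => x i = true))) =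
        (fun x => decide (∃ i, x i = true ∧ ¬ Alive R (con i)
          (stage R con (univ.filter fun i => x i = true) (Fintype.card V ^ 2 + 1)))) := by
      funext x
      rw [decide_eq_decide, EQ_Stage EQ_Perm ι ar R hR h V I con _ _ (Nat.lt_succ_self _)]
      push Not
      refine exists_congr fun i => ?_
      rw [mem_filter]
      exact and_congr_left fun _ => and_iff_right (mem_univ _)
    rw [e]
    exact hA

end Pool.Agent.Y612.Eq
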