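import Pool.Agent.Y612.Eq.Stm

/-!
# The host instance (job EQ-HOST, helper899)
-/

set_option autoImplicit false

namespace Pool.Agent.Y612.Eq

open Finset
open scoped Classical

/-- the host instance -/
theorem EQ_Host : S_Host := by
  intro ι ar R B Q hB hQ
  obtain ⟨UB, fUB, JB, hB⟩ := hB
  choose U fU J hQ using hQ
  refine ⟨7 + Fintype.card UB + JB.length +
    ∑ b : Fin 9, (Fintype.card (U b) + (J b).length), ?_⟩
  intro V I _ _ a v
  let ρB : V → (Fin 6 ⊕ Fin 1) ⊕ UB → (Fin 6 ⊕ V) ⊕ ((V × UB) ⊕ (Σ i : I, U (a i))) := fun u =>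
    Sum.elim (Sum.elim (fun j => Sum.inl (Sum.inl j)) (fun _ => Sum.inl (Sum.inr u)))
      (fun e => Sum.inr (Sum.inl (u, e)))
  let ρQ : ∀ i : I, (Fin 6 ⊕ Fin 3) ⊕ U (a i) →
      (Fin 6 ⊕ V) ⊕ ((V × UB) ⊕ (Σ i : I, U (a i))) := fun i =>
    Sum.elim (Sum.elim (fun j => Sum.inl (Sum.inl j)) (fun k => Sum.inl (Sum.inr (v i k))))
      (fun e => Sum.inr (Sum.inr ⟨i, e⟩))
  let con : (V × Fin JB.length) ⊕ (Σ i : I, Fin (J (a i)).length) →
      Con ar ((Fin 6 ⊕ V) ⊕ ((V × UB) ⊕ (Σ i : I, U (a i)))) :=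
    Sum.elim (fun p => Con.map (ρB p.1) (JB.get p.2))
      (fun p => Con.map (ρQ p.1) ((J (a p.1)).get p.2))
  refine ⟨(Fin 6 ⊕ V) ⊕ ((V × UB) ⊕ (Σ i : I, U (a i))),
    (V × Fin JB.length) ⊕ (Σ i : I, Fin (J (a i)).length), inferInstance, inferInstance, con,
    Sum.elim (fun _ => none) (fun p => some p.1), ?_, ?_⟩
  · have h1 : ∑ i : I, (Fintype.card (U (a i)) + (J (a i)).length) ≤
        Fintype.card I * ∑ b : Fin 9, (Fintype.card (U b) + (J b).length) := by
      have h2 : ∀ i ∈ (Finset.univ : Finset I), Fintype.card (U (a i)) + (J (a i)).length ≤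
          ∑ b : Fin 9, (Fintype.card (U b) + (J b).length) := fun i _ =>
        Finset.single_le_sum (f := fun b : Fin 9 => Fintype.card (U b) + (J b).length)
          (fun _ _ => Nat.zero_le _) (Finset.mem_univ (a i))
      have h3 := Finset.sum_le_card_nsmul _ _ _ h2
      rwa [Finset.card_univ, smul_eq_mul] at h3
    rw [Finset.sum_add_distrib] at h1
    simp only [Fintype.card_sum, Fintype.card_prod, Fintype.card_sigma, Fintype.card_fin]
    generalize (∑ b : Fin 9, (Fintype.card (U b) + (J b).length)) = D at h1 ⊢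
    generalize (∑ i : I, Fintype.card (U (a i))) = E1 at h1 ⊢
    generalize (∑ i : I, (J (a i)).length) = E2 at h1 ⊢
    generalize Fintype.card V = cv
    generalize Fintype.card I = ci at h1 ⊢
    generalize Fintype.card UB = cu
    generalize JB.length = cj
    have e1 : (7 + cu + cj + D) * (cv + ci + 1) =
        7 * cv + 7 * ci + 7 + cu * cv + cu * ci + cu + cj * cv + cj * ci + cj + D * cv + ci * D +
          D := by ring
    have e2 : 6 + cv + (cv * cu + E1) + (cv * cj + E2) =
        6 + cv + cu * cv + cj * cv + (E1 + E2) := by ring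
    rw [e1, e2]
    have p1 : 0 ≤ cu * ci := Nat.zero_le _
    have p2 : 0 ≤ cj * ci := Nat.zero_le _
    have p3 : 0 ≤ D * cv := Nat.zero_le _
    omega
  · intro X
    constructor
    · rintro ⟨z, hz⟩
      refine ⟨fun j => z (Sum.inl (Sum.inl j)), fun u => z (Sum.inl (Sum.inr u)), ?_, ?_⟩
      · intro u
        rw [hB]
        refine ⟨fun e => z (Sum.inr (Sum.inl (u, e))), fun c hc => ?_⟩
        obtain ⟨n, rfl⟩ := List.get_of_mem hc
        have h1 := hz (Sum.inl (u, n)) (Finset.mem_filter.2 ⟨Finset.mem_univ _, by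
          intro i hi
          simp at hi⟩)
        have h2 := (holds_map (R := R) (ρB u) (JB.get n) z).1 h1
        refine (holds_congr ?_).1 h2
        rintro ((j | k) | e) <;> rfl
      · intro i hi
        rw [hQ]
        refine ⟨fun e => z (Sum.inr (Sum.inr ⟨i, e⟩)), fun c hc => ?_⟩
        obtain ⟨n, rfl⟩ := List.get_of_mem hc
        have h1 := hz (Sum.inr ⟨i, n⟩) (Finset.mem_filter.2 ⟨Finset.mem_univ _, by
          intro i' hi'
          simp only [Sum.elim_inr, Option.some.injEq] at hi'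
          rw [← hi']
          exact hi⟩)
        have h2 := (holds_map (R := R) (ρQ i) ((J (a i)).get n) z).1 h1
        refine (holds_congr ?_).1 h2
        rintro ((j | k) | e) <;> rfl
    · rintro ⟨c, x, h1, h2⟩
      have h3 : ∀ u, ∃ g : UB → ℕ, ∀ d ∈ JB,
          Holds R (Sum.elim (Sum.elim c (fun _ => x u)) g) d := fun u => (hB _).1 (h1 u)
      choose gB hgB using h3
      have h4 : ∀ i, ∃ g : U (a i) → ℕ, i ∈ X → ∀ d ∈ J (a i),
          Holds R (Sum.elim (Sum.elim c (fun k => x (v i k))) g) d := by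
        intro i
        by_cases hi : i ∈ X
        · obtain ⟨g, hg⟩ := (hQ (a i) _).1 (h2 i hi)
          exact ⟨g, fun _ => hg⟩
        · exact ⟨fun _ => 0, fun h => absurd h hi⟩
      choose gQ hgQ using h4
      refine ⟨Sum.elim (Sum.elim c x) (Sum.elim (fun p => gB p.1 p.2) (fun p => gQ p.1 p.2)), ?_⟩
      intro j hj
      rw [Finset.mem_filter] at hj
      rcases j with ⟨u, n⟩ | ⟨i, n⟩
      · refine (holds_map (R := R) (ρB u) (JB.get n) _).2 ?_
        refine (holds_congr ?_).1 (hgB u _ (List.get_mem JB n))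
        rintro ((j | k) | e) <;> rfl
      · have hi : i ∈ X := hj.2 i rfl
        refine (holds_map (R := R) (ρQ i) ((J (a i)).get n) _).2 ?_
        refine (holds_congr ?_).1 (hgQ i hi _ (List.get_mem (J (a i)) n))
        rintro ((j | k) | e) <;> rfl

end Pool.Agent.Y612.Eq
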