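import Pool.Agent.Y612.Eq.Stm
import Pool.Agent.Y612.Sat.Defs

/-!
# Formulas as constraint satisfaction problems
-/

set_option autoImplicit false

namespace Pool.Agent.Y612.Eq

open Finset
open scoped Classical

theorem three_of_list {α : Type} (L : List α) (h0 : L ≠ []) (h3 : L.length ≤ 3) :
    ∃ w : Fin 3 → α, ∀ l, l ∈ L ↔ ∃ k, w k = l := by
  match L, h0, h3 with
  | [], h0, _ => exact absurd rfl h0
  | [a], _, _ =>
    refine ⟨![a, a, a], fun l => ?_⟩
    simp only [List.mem_singleton, Fin.exists_fin_succ, Matrix.cons_val_zero, Matrix.cons_val_succ]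
    simp [eq_comm]
  | [a, b], _, _ =>
    refine ⟨![a, b, b], fun l => ?_⟩
    simp only [List.mem_cons, List.not_mem_nil, or_false, Fin.exists_fin_succ, Matrix.cons_val_zero,
      Matrix.cons_val_succ]
    simp [eq_comm]
  | [a, b, c], _, _ =>
    refine ⟨![a, b, c], fun l => ?_⟩
    simp only [List.mem_cons, List.not_mem_nil, or_false, Fin.exists_fin_succ, Matrix.cons_val_zero,
      Matrix.cons_val_succ]
    simp [eq_comm]

theorem host_of {ι : Type} {ar : ι → ℕ} {R : ∀ i, Set (Fin (ar i) → ℕ)} (hB : PP R Base)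
    (hC : ∀ b : Fin 3 → Bool, ∃ Q : Set (Fin 6 ⊕ Fin 3 → ℕ), PP R Q ∧ IsClause b Q)
    (hH : S_Host) : ∃ C : ℕ, ∀ (V I : Type) [Fintype V] [Fintype I] (cl : I → Finset (V × Bool)),
      (∀ i, ∃ w : Fin 3 → V × Bool, ∀ l, l ∈ cl i ↔ ∃ k, w k = l) →
      ∃ (V' I' : Type) (_ : Fintype V') (_ : Fintype I') (con : I' → Con ar V')
        (σ : I' → Option I), Fintype.card V' + Fintype.card I' ≤
          C * (Fintype.card V + Fintype.card I + 1) ∧
        ∀ X : Finset I, Solvable R con (univ.filter fun j => ∀ i, σ j = some i → i ∈ X) ↔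
          Pool.Agent.Y612.Sat.Satisfiable cl X := by
  choose Q hQ hQc using hC
  have e : (Fin 3 → Bool) ≃ Fin 8 := Fintype.equivFinOfCardEq (by simp)
  obtain ⟨C, hC⟩ := hH ι ar R Base (fun a => if h : a.val < 8 then Q (e.symm ⟨a, h⟩) else Set.univ)
    hB (by
      intro a
      split_ifs
      · exact hQ _
      · exact pp_univ)
  refine ⟨C, fun V I _ _ cl hcl => ?_⟩
  choose w hw using hcl
  obtain ⟨V', I', fV, fI, con, σ, hcard, hsol⟩ := hC V I (fun i => (e fun k => (w i k).2).castSucc)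
    (fun i k => (w i k).1)
  refine ⟨V', I', fV, fI, con, σ, hcard, fun X => ?_⟩
  rw [hsol]
  have hQ' : ∀ i, (if h : ((e fun k => (w i k).2).castSucc : Fin 9).val < 8 then
      Q (e.symm ⟨((e fun k => (w i k).2).castSucc : Fin 9), h⟩) else Set.univ) =
      Q (fun k => (w i k).2) := by
    intro i
    rw [dif_pos (by simp)]
    congr 1
    have : (⟨((e fun k => (w i k).2).castSucc : Fin 9), by simp⟩ : Fin 8) =
        e fun k => (w i k).2 := Fin.ext rfl
    rw [this, Equiv.symm_apply_apply]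
  simp only [hQ']
  constructor
  · rintro ⟨c, x, hb, hx⟩
    refine ⟨fun u => decide (x u = c 1), fun i hi => ?_⟩
    have h1 : Function.Injective c := (hb (w i 0).1).1
    obtain ⟨k, hk⟩ := (hQc _ _ h1 (fun k => (hb (w i k).1).2)).1 (hx i hi)
    refine ⟨w i k, (hw i _).2 ⟨k, rfl⟩, ?_⟩
    simp only [Sum.elim_inr, Sum.elim_inl] at hk
    cases hb' : (w i k).2
    · rw [hb'] at hk
      have h2 : x (w i k).1 = c 0 := hk
      have h3 : c 0 ≠ c 1 := fun h => absurd (h1 h) (by decide)
      simp only [h2]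
      exact decide_eq_false h3
    · rw [hb'] at hk
      have h2 : x (w i k).1 = c 1 := hk
      simp [h2]
  · rintro ⟨τ, hτ⟩
    have hx : ∀ u, ((if τ u = true then 1 else 0 : ℕ) = 0 ∨ (if τ u = true then 1 else 0 : ℕ) = 1) := by
      intro u
      split_ifs
      · exact Or.inr rfl
      · exact Or.inl rfl
    refine ⟨fun j => j.val, fun u => if τ u = true then 1 else 0, fun u => ⟨Fin.val_injective, ?_⟩,
      fun i hi => ?_⟩
    · exact hx u
    · refine (hQc _ _ Fin.val_injective (fun k => hx _)).2 ?_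
      obtain ⟨l, hl, hτl⟩ := hτ i hi
      obtain ⟨k, rfl⟩ := (hw i l).1 hl
      refine ⟨k, ?_⟩
      simp only [Sum.elim_inr, Sum.elim_inl]
      rw [hτl]
      cases (w i k).2 <;> rfl

end Pool.Agent.Y612.Eq
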