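import Pool.Agent.Y612.Eq.Stm
import Pool.Agent.Y612.Eq.Defs2
import Pool.Agent.Y612.Sat.Defs

/-!
# Statements of the parts, second list
-/

set_option autoImplicit false

namespace Pool.Agent.Y612.Eq

open Finset
open scoped Classical

/-- 3-SAT as 3-colouring: `ends e` are the ends of the edge `e`, which is present if `σ e = none` or
if `σ e = some i` with `i ∈ X` -/
def S_Graph : Prop := ∃ C : ℕ, ∀ (V I : Type) [Fintype V] [Fintype I]
  (cl : I → Finset (V × Bool)), (∀ i, ∃ w : Fin 3 → V × Bool, ∀ l, l ∈ cl i ↔ ∃ k, w k = l) →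
  ∃ (G E : Type) (_ : Fintype G) (_ : Fintype E) (ends : E → G × G) (σ : E → Option I),
    Fintype.card G + Fintype.card E ≤ C * (Fintype.card V + Fintype.card I + 1) ∧
    ∀ X : Finset I, (∃ κ : G → Fin 3, ∀ e, (∀ i, σ e = some i → i ∈ X) →
      κ (ends e).1 ≠ κ (ends e).2) ↔ Pool.Agent.Y612.Sat.Satisfiable cl X

/-- 3-colouring in every structure which pp-constructs the triangle -/
def S_K3Host : Prop := ∀ (ι : Type) (ar : ι → ℕ) (D : Type) (R : ∀ i, Set (Fin (ar i) → D)),
  ConstructsK3 R → ∃ C : ℕ, ∀ (G E I : Type) [Fintype G] [Fintype E]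
    (ends : E → G × G) (σ : E → Option I),
    ∃ (V' I' : Type) (_ : Fintype V') (_ : Fintype I') (con : I' → Con ar V')
      (σ' : I' → Option I), Fintype.card V' + Fintype.card I' ≤
        C * (Fintype.card G + Fintype.card E + 1) ∧
      ∀ X : Finset I, Solvable R con (univ.filter fun j => ∀ i, σ' j = some i → i ∈ X) ↔
        ∃ κ : G → Fin 3, ∀ e, (∀ i, σ e = some i → i ∈ X) → κ (ends e).1 ≠ κ (ends e).2

/-- pp-construction of the triangle from the two relations -/
def S_PPK3 : Prop := ∀ (ι : Type) (ar : ι → ℕ) (R : ∀ i, Set (Fin (ar i) → ℕ)), PP R NE →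
  PP R S3 → ConstructsK3 R

end Pool.Agent.Y612.Eq
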