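import Pool.Agent.Y612.Eq.Comap
import Pool.Agent.Y612.Eq.Stm2
import Pool.Agent.Y612.Eq.Defs3
import Pool.Agent.Y612.Eq.Host2
import Pool.Agent.Y612.Sat.Main

/-!
# The lower bound
-/

set_option autoImplicit false

namespace Pool.Agent.Y612.Eq

open Finset H630VC
open scoped Classical

theorem pow_cmp (β η : ℝ) (hη : 0 < η) (D : ℕ) (hD : 1 ≤ D) : ∃ N₀ : ℕ, ∀ N : ℕ, N₀ ≤ N →
    ∀ n : ℕ, N ≤ D * n → n ≤ N → 1 ≤ n → (N : ℝ) ^ β ≤ (n : ℝ) ^ (β + η) := by
  have h1 : Filter.Tendsto (fun N : ℕ => (N : ℝ) ^ η) Filter.atTop Filter.atTop :=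
    (tendsto_rpow_atTop hη).comp tendsto_natCast_atTop_atTop
  obtain ⟨N₀, hN₀⟩ := Filter.eventually_atTop.1 (h1.eventually_ge_atTop ((D : ℝ) ^ (β + η)))
  refine ⟨N₀, fun N hN n hDn hnN hn => ?_⟩
  have hn0 : (0 : ℝ) < n := by exact_mod_cast hn
  have hN0 : (0 : ℝ) < N := by
    have : 0 < N := by omega
    exact_mod_cast this
  have hN1 : (1 : ℝ) ≤ N := by
    have : 1 ≤ N := by omega
    exact_mod_cast this
  have hD0 : (0 : ℝ) < D := by exact_mod_cast hD
  rcases le_or_gt 0 (β + η) with h | h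
  · have h2 : (N : ℝ) / D ≤ n := by
      rw [div_le_iff₀ hD0]
      have : ((N : ℕ) : ℝ) ≤ ((D * n : ℕ) : ℝ) := by exact_mod_cast hDn
      push_cast at this
      linarith
    calc (N : ℝ) ^ β = (N : ℝ) ^ (β + η) / (N : ℝ) ^ η := by
          rw [← Real.rpow_sub hN0]
          congr 1
          ring
      _ ≤ (N : ℝ) ^ (β + η) / (D : ℝ) ^ (β + η) :=
          div_le_div_of_nonneg_left (Real.rpow_nonneg hN0.le _) (Real.rpow_pos_of_pos hD0 _)
            (hN₀ N hN)
      _ = ((N : ℝ) / D) ^ (β + η) := (Real.div_rpow hN0.le hD0.le _).symm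
      _ ≤ (n : ℝ) ^ (β + η) := Real.rpow_le_rpow (by positivity) h2 h
  · calc (N : ℝ) ^ β ≤ (N : ℝ) ^ (β + η) :=
          Real.rpow_le_rpow_of_exponent_le hN1 (by linarith)
      _ ≤ (n : ℝ) ^ (β + η) :=
          Real.rpow_le_rpow_of_nonpos hn0 (by exact_mod_cast hnN) h.le

section

variable {ι : Type} {ar : ι → ℕ} {D : Type} (R : ∀ i, Set (Fin (ar i) → D))

/-- the host instances for formulas -/
def Hosts : Prop := ∃ C : ℕ, ∀ (V I : Type) [Fintype V] [Fintype I] (cl : I → Finset (V × Bool)),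
  (∀ i, ∃ w : Fin 3 → V × Bool, ∀ l, l ∈ cl i ↔ ∃ k, w k = l) →
  ∃ (V' I' : Type) (_ : Fintype V') (_ : Fintype I') (con : I' → Con ar V')
    (σ : I' → Option I), Fintype.card V' + Fintype.card I' ≤
      C * (Fintype.card V + Fintype.card I + 1) ∧
    ∀ (X : Finset I) (Y : Finset I'), (∀ j, j ∈ Y ↔ ∀ i, σ j = some i → i ∈ X) →
      (Solvable R con Y ↔ Pool.Agent.Y612.Sat.Satisfiable cl X)

/-- the constraints that are present -/
noncomputable def pres {I I' : Type} [Fintype I'] (σ : I' → Option I) (X : Finset I) : Finset I' :=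
  univ.filter fun j => ∀ i, σ j = some i → i ∈ X

theorem mem_pres {I I' : Type} [Fintype I'] (σ : I' → Option I) (X : Finset I) (j : I') :
    j ∈ pres σ X ↔ ∀ i, σ j = some i → i ∈ X := by
  unfold pres
  rw [mem_filter]
  exact and_iff_right (mem_univ _)

theorem pres_bits {I I' : Type} [Fintype I'] (σ : I' → Option I) :
    ∀ g ∈ bits I', (fun X => g (pres σ X)) ∈ Pool.Agent.Y612.Sat.bits I := by
  rintro g (⟨j, rfl⟩ | ⟨c, rfl⟩)
  · rcases hσ : σ j with _ | i
    · refine Or.inr ⟨1, ?_⟩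
      funext X
      have : j ∈ pres σ X := by
        rw [mem_pres]
        intro i hi
        rw [hσ] at hi
        exact absurd hi (by simp)
      exact if_pos this
    · refine Or.inl ⟨i, ?_⟩
      funext X
      have : j ∈ pres σ X ↔ i ∈ X := by
        rw [mem_pres, hσ]
        exact ⟨fun h => h i rfl, fun h i' hi' => by
          have := Option.some.inj hi'
          exact this ▸ h⟩
      by_cases h : i ∈ X
      · exact (if_pos (this.2 h)).trans (if_pos h).symm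
      · exact (if_neg fun h' => h (this.1 h')).trans (if_neg h).symm
  · exact Or.inr ⟨c, rfl⟩

theorem lc_ne (s : Option Bool) (r : Bool) (k : Fin 20) :
    (Pool.Agent.Y612.Sat.lc s r k).length ≠ 0 := by
  revert s r k
  decide

theorem cl_three {A K : ℕ} (sg : ℕ → ℕ → Option Bool) (rs : ℕ → ℕ → Bool)
    (i : Pool.Agent.Y612.Sat.Ix A K) : ∃ w : Fin 3 → Pool.Agent.Y612.Sat.Var A K × Bool,
      ∀ l, l ∈ Pool.Agent.Y612.Sat.cl sg rs i ↔ ∃ k, w k = l := by
  obtain ⟨w, hw⟩ := three_of_list ((Pool.Agent.Y612.Sat.lc (sg i.1 i.2.1) (rs i.1 i.2.1) i.2.2).map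
    fun l => (Pool.Agent.Y612.Sat.lv i.1 i.2.1 l.1, l.2)) (by
      intro h
      have h1 := congrArg List.length h
      rw [List.length_map] at h1
      exact lc_ne _ _ _ h1)
    (by
      rw [List.length_map]
      exact Pool.Agent.Y612.Sat.lc_length _ _ _)
  refine ⟨w, fun l => ?_⟩
  rw [← hw l]
  unfold Pool.Agent.Y612.Sat.cl
  rw [List.mem_toFinset]

variable {R}

theorem lower_of (hR : Hosts R) : Hard R := by
  obtain ⟨C, hC⟩ := hR
  intro γ hγ hγ1 ε hε
  set δ : ℝ := min (ε / 2) ((1 - γ) / 2) with hδ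
  have hδ0 : 0 < δ := lt_min (by linarith) (by linarith)
  have hδ1 : δ ≤ ε / 2 := min_le_left _ _
  have hδ2 : δ ≤ (1 - γ) / 2 := min_le_right _ _
  obtain ⟨N1, H⟩ := Pool.Agent.Y612.Sat.main0 (γ + δ) (by linarith) (by linarith) (ε / 4)
    (by linarith)
  set D' : ℕ := 4 * (C + 1) with hD'
  obtain ⟨N2, H2⟩ := pow_cmp γ δ hδ0 D' (by omega)
  obtain ⟨N3, H3⟩ := pow_cmp ((1 - γ) / 2 - ε) (((1 - (γ + δ)) / 2 - ε / 4) - ((1 - γ) / 2 - ε))
    (by linarith) D' (by omega)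
  refine ⟨max (max N2 N3) (4 * (C + 1) * (N1 + 2)), fun N hN => ?_⟩
  have hN2 : N2 ≤ N := le_trans (le_trans (le_max_left _ _) (le_max_left _ _)) hN
  have hN3 : N3 ≤ N := le_trans (le_trans (le_max_right _ _) (le_max_left _ _)) hN
  have hN4 : 4 * (C + 1) * (N1 + 2) ≤ N := le_trans (le_max_right _ _) hN
  obtain ⟨n, hn⟩ : ∃ n, n = N / (2 * (C + 1)) := ⟨_, rfl⟩
  have hn1 : 2 * (C + 1) * n ≤ N := by
    rw [hn]
    exact Nat.mul_div_le _ _
  have hn2 : N < 2 * (C + 1) * (n + 1) := by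
    rw [hn]
    exact Nat.lt_mul_div_succ N (by omega)
  have hn3 : N1 + 2 ≤ n := by
    by_contra hcon
    have : n + 1 ≤ N1 + 2 := by omega
    have h5 : 2 * (C + 1) * (n + 1) ≤ 2 * (C + 1) * (N1 + 2) := Nat.mul_le_mul_left _ this
    have h6 : 4 * (C + 1) * (N1 + 2) = 2 * (2 * (C + 1) * (N1 + 2)) := by ring
    omega
  have hn4 : N ≤ D' * n := by
    have h5 : 2 * (C + 1) * (n + 1) ≤ 2 * (C + 1) * (2 * n) := Nat.mul_le_mul_left _ (by omega)
    have h6 : D' * n = 2 * (C + 1) * (2 * n) := by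
      rw [hD']
      ring
    omega
  have hn5 : n ≤ N := le_trans (Nat.le_mul_of_pos_left n (by omega)) hn1
  obtain ⟨A, K, sg, rs, hcard, H'⟩ := H n (by omega)
  obtain ⟨V', I', fV, fI, con, σ, hcard', hsol⟩ := hC (Pool.Agent.Y612.Sat.Var A K)
    (Pool.Agent.Y612.Sat.Ix A K) (Pool.Agent.Y612.Sat.cl sg rs) (cl_three sg rs)
  refine ⟨V', I', fV, fI, con, ?_, ?_⟩
  · refine hcard'.trans ?_
    have h5 : C * (Fintype.card (Pool.Agent.Y612.Sat.Var A K) +
        Fintype.card (Pool.Agent.Y612.Sat.Ix A K) + 1) ≤ (C + 1) * (2 * n) :=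
      Nat.mul_le_mul (by omega) (by omega)
    have h6 : (C + 1) * (2 * n) = 2 * (C + 1) * n := by ring
    omega
  · intro R' _ _ l q f θ hl hf hfree hyes hno
    obtain ⟨r, hr⟩ := H' R' (fun r => (l r).map fun g X => g (pres σ X))
      (fun r => (q r).map fun w => w.map fun p => ((fun X => p.1 (pres σ X)), p.2))
      (fun r X => f r (pres σ X)) θ
      (fun r => fprog_comap (pres σ) (pres_bits σ) (hl r))
      (fun r => List.mem_map_of_mem (hf r))
      (fun r => by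
        rw [combos_comap]
        exact (hfree r).trans (H2 N hN2 n hn4 hn5 (by omega)))
      (fun X hX => hyes (pres σ X) (fun h => hX ((hsol X _ (mem_pres σ X)).1 h)))
      (fun X hX => hno (pres σ X) ((hsol X _ (mem_pres σ X)).2 hX))
    refine ⟨r, ?_⟩
    rw [wires_comap, List.length_map] at hr
    refine le_trans (Real.exp_le_exp.2 ?_) hr
    have h7 := H3 N hN3 n hn4 hn5 (by omega)
    have e : (1 - γ) / 2 - ε + ((1 - (γ + δ)) / 2 - ε / 4 - ((1 - γ) / 2 - ε)) =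
        (1 - (γ + δ)) / 2 - ε / 4 := by ring
    rw [e] at h7
    exact h7

end

end Pool.Agent.Y612.Eq
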