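import Pool.Agent.Y612.Eq.Defs

/-!
# Propagation of equalities: definitions
-/

set_option autoImplicit false

namespace Pool.Agent.Y612.Eq

open Finset
open scoped Classical

section

variable {ι : Type} {ar : ι → ℕ} (R : ∀ i, Set (Fin (ar i) → ℕ)) {V I : Type} (con : I → Con ar V)

/-- the equality of the values in the places `p` and `q` of the constraint `c` follows from the
equalities in `E` -/
def Forced (c : Con ar V) (E : V → V → Prop) (p q : Fin (ar c.1)) : Prop :=
  ∀ f ∈ R c.1, (∀ p' q', E (c.2 p') (c.2 q') → f p' = f q') → f p = f q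

/-- one step of the propagation of equalities -/
def step (X : Finset I) (E : V → V → Prop) (u v : V) : Prop :=
  E u v ∨ (∃ w, E u w ∧ E w v) ∨
    ∃ i ∈ X, ∃ p q, (con i).2 p = u ∧ (con i).2 q = v ∧ Forced R (con i) E p q

/-- the equalities derived in `n` steps -/
def stage (X : Finset I) : ℕ → V → V → Prop
  | 0 => fun u v => u = v
  | n + 1 => step R con X (stage X n)

/-- some tuple of the relation of `c` satisfies the equalities in `E` -/
def Alive (c : Con ar V) (E : V → V → Prop) : Prop :=
  ∃ f ∈ R c.1, ∀ p q, E (c.2 p) (c.2 q) → f p = f q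

end

end Pool.Agent.Y612.Eq
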