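import Pool.Agent.Y612.Eq.Calc
import Pool.Agent.Y612.Eq.Up0
import Pool.Agent.Y612.CspUp

/-!
# Statements of the parts
-/

set_option autoImplicit false

namespace Pool.Agent.Y612.Eq

open Finset
open scoped Classical

/-- two minimal elements which generate -/
def S_Comb : Prop := ∀ (T : Type) [Finite T] (K : Set (Set T)) (a b : Set T), a ∈ K → b ∈ K →
  a ∩ b ∉ K → ∃ α ∈ K, ∃ β ∈ K, ¬ α ⊆ β ∧ ¬ β ⊆ α ∧
    ∀ κ ∈ K, α ∩ β ⊆ κ → κ ⊆ α ∪ β → α ⊆ κ ∨ β ⊆ κ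

/-- tuples with the same kernel differ by a permutation -/
def S_Perm : Prop := ∀ (k : ℕ) (f g : Fin k → ℕ), ker f = ker g →
  ∃ σ : Equiv.Perm ℕ, ∀ p, σ (f p) = g p

def S_NE : Prop := ∀ (ι : Type) (ar : ι → ℕ) (R : ∀ i, Set (Fin (ar i) → ℕ)), Inv R →
  ¬ HasConst R → PP R NE

/-- from two kernels as in `S_Comb` -/
def S_Cases : Prop := ∀ (ι : Type) (ar : ι → ℕ) (R : ∀ i, Set (Fin (ar i) → ℕ)), Inv R → PP R NE →
  ∀ (i : ι), ∀ s ∈ R i, ∀ t ∈ R i, ¬ ker s ⊆ ker t → ¬ ker t ⊆ ker s →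
    (∀ f ∈ R i, ker s ∩ ker t ⊆ ker f → ker f ⊆ ker s ∪ ker t → ker s ⊆ ker f ∨ ker t ⊆ ker f) →
    PP R S3 ∨ ∃ T : Set (Fin 4 → ℕ), PP R T ∧ Four T

def S_FourThree : Prop := ∀ (ι : Type) (ar : ι → ℕ) (R : ∀ i, Set (Fin (ar i) → ℕ)), PP R NE →
  ∀ T : Set (Fin 4 → ℕ), PP R T → Four T → PP R S3

def S_Three : Prop := ∀ (ι : Type) (ar : ι → ℕ) (R : ∀ i, Set (Fin (ar i) → ℕ)), Inv R →
  ¬ HasConst R → ¬ HasInj R → PP R NE ∧ PP R S3

def S_Base : Prop := ∀ (ι : Type) (ar : ι → ℕ) (R : ∀ i, Set (Fin (ar i) → ℕ)), PP R NE →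
  PP R S3 → PP R Base

def S_Clause : Prop := ∀ (ι : Type) (ar : ι → ℕ) (R : ∀ i, Set (Fin (ar i) → ℕ)), PP R NE →
  PP R S3 → ∀ b : Fin 3 → Bool, ∃ Q : Set (Fin 6 ⊕ Fin 3 → ℕ), PP R Q ∧ IsClause b Q

/-- the host instance -/
def S_Host : Prop := ∀ (ι : Type) (ar : ι → ℕ) (R : ∀ i, Set (Fin (ar i) → ℕ))
  (B : Set (Fin 6 ⊕ Fin 1 → ℕ)) (Q : Fin 9 → Set (Fin 6 ⊕ Fin 3 → ℕ)), PP R B →
  (∀ a, PP R (Q a)) → ∃ C : ℕ, ∀ (V I : Type) [Fintype V] [Fintype I] (a : I → Fin 9)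
    (v : I → Fin 3 → V), ∃ (V' I' : Type) (_ : Fintype V') (_ : Fintype I') (con : I' → Con ar V')
    (σ : I' → Option I), Fintype.card V' + Fintype.card I' ≤
      C * (Fintype.card V + Fintype.card I + 1) ∧
    ∀ X : Finset I, Solvable R con (univ.filter fun j => ∀ i, σ j = some i → i ∈ X) ↔
      ∃ (c : Fin 6 → ℕ) (x : V → ℕ), (∀ u, Sum.elim c (fun _ => x u) ∈ B) ∧
        ∀ i ∈ X, Sum.elim c (fun k => x (v i k)) ∈ Q (a i)

/-- propagation is complete if there is an injective binary polymorphism -/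
def S_Stage : Prop := ∀ (ι : Type) (ar : ι → ℕ) (R : ∀ i, Set (Fin (ar i) → ℕ)), Inv R →
  HasInj R → ∀ (V I : Type) [Fintype V] (con : I → Con ar V) (X : Finset I) (n : ℕ),
    Fintype.card V ^ 2 < n →
    (Solvable R con X ↔ ∀ i ∈ X, Alive R (con i) (stage R con X n))

/-- circuits for the propagation -/
def S_Circ : Prop := ∀ (ι : Type) [Finite ι] (ar : ι → ℕ) (R : ∀ i, Set (Fin (ar i) → ℕ)),
  ∃ C : ℕ, ∀ (V I : Type) [Fintype V] [Fintype I] (con : I → Con ar V) (n : ℕ),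
    ∃ L : List ((I → Bool) → Bool), MCirc I L ∧
      L.length ≤ C * (n + 1) * (Fintype.card V + Fintype.card I + 1) ^ 4 ∧
      Avail L (fun x => decide (∃ i, x i = true ∧
        ¬ Alive R (con i) (stage R con (univ.filter fun i => x i = true) n)))

/-- circuits if there is a constant polymorphism -/
def S_ConstCirc : Prop := ∀ (ι : Type) (ar : ι → ℕ) (R : ∀ i, Set (Fin (ar i) → ℕ)), HasConst R →
  ∀ (V I : Type) [Fintype I] (con : I → Con ar V),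
    ∃ L : List ((I → Bool) → Bool), MCirc I L ∧ L.length ≤ Fintype.card I ∧
      Avail L (fun x => decide (¬ Solvable R con (univ.filter fun i => x i = true)))

end Pool.Agent.Y612.Eq
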